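import Pool.Agent.W_aaa0df_h13.EBound

set_option autoImplicit false

namespace MPaaa0dfExp

open Finset Real MPaaa0df

/-- the primes between `R` and `m` -/
def PR (R m : ℕ) : Finset ℕ := m.primesBelow.filter (fun p => R < p)

/-- dyadic blocks -/
def BL (R m i : ℕ) : Finset ℕ := (PR R m).filter (fun p => m / 2 ^ (i + 1) < p ∧ p ≤ m / 2 ^ i)

/-- the tail -/
def TL (R m i : ℕ) : Finset ℕ := (PR R m).filter (fun p => p ≤ m / 2 ^ i)

lemma sum_blocks (f : ℕ → ℝ) (R m I : ℕ) :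
    ∑ p ∈ PR R m, f p = ∑ i ∈ range I, ∑ p ∈ BL R m i, f p + ∑ p ∈ TL R m I, f p := by
  induction I with
  | zero =>
    rw [Finset.range_zero, Finset.sum_empty, zero_add]
    apply Finset.sum_congr _ (fun _ _ => rfl)
    unfold TL
    rw [Finset.filter_true_of_mem]
    intro p hp
    rw [PR, Finset.mem_filter] at hp
    rw [pow_zero, Nat.div_one]
    exact (Nat.lt_of_mem_primesBelow hp.1).le
  | succ I ih =>
    rw [Finset.sum_range_succ, ih]
    have h : TL R m I = BL R m I ∪ TL R m (I + 1) := by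
      ext p
      unfold TL BL
      simp only [Finset.mem_union, Finset.mem_filter]
      have hle : m / 2 ^ (I + 1) ≤ m / 2 ^ I :=
        Nat.div_le_div_left (Nat.pow_le_pow_right (by norm_num) (by omega)) (by positivity)
      constructor
      · rintro ⟨h1, h2⟩
        by_cases h3 : m / 2 ^ (I + 1) < p
        · left; exact ⟨h1, h3, h2⟩
        · right; exact ⟨h1, by omega⟩
      · rintro (⟨h1, _, h2⟩ | ⟨h1, h2⟩)
        · exact ⟨h1, h2⟩
        · exact ⟨h1, h2.trans hle⟩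
    have hd : Disjoint (BL R m I) (TL R m (I + 1)) := by
      rw [Finset.disjoint_left]
      intro p hp hp'
      unfold BL at hp
      unfold TL at hp'
      rw [Finset.mem_filter] at hp hp'
      omega
    rw [h, Finset.sum_union hd]
    ring

lemma BL_props {R m i p : ℕ} (hp : p ∈ BL R m i) :
    p.Prime ∧ R < p ∧ m / 2 ^ i < 2 * p ∧ p ≤ m / 2 ^ i := by
  unfold BL PR at hp
  rw [Finset.mem_filter, Finset.mem_filter] at hp
  obtain ⟨⟨h1, h2⟩, h3, h4⟩ := hp
  refine ⟨Nat.prime_of_mem_primesBelow h1, h2, ?_, h4⟩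
  rw [pow_succ, ← Nat.div_div_eq_div_mul] at h3
  omega

lemma MZ.smul {p : ℕ} {g : ℕ → ℝ} (h : MZ p g) (s : ℝ) : MZ p (fun n => s * g n) := by
  refine ⟨fun n => by rw [h.per], fun Q h1 h2 m => ?_⟩
  rw [← Finset.mul_sum, h.sum Q h1 h2 m, mul_zero]

/-- an asymptotic inequality -/
lemma asym3 {γ : ℝ} (hγ1 : γ < 1) :
    ∃ m0 : ℕ, ∀ m : ℕ, m0 ≤ m → (m : ℝ) ^ γ * (log (m : ℝ)) ^ 2 ≤ m := by
  have hr : 0 < (1 - γ) / 2 := by linarith
  obtain ⟨m0, hm0⟩ := asym1r (α := 1 - (1 - γ) / 4) (by linarith) 1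
  set r : ℝ := (1 - γ) / 4 with hrr
  have hrpos : 0 < r := by rw [hrr]; linarith
  obtain ⟨m1, hm1⟩ := exists_nat_ge ((1 / r) ^ (1 / r))
  refine ⟨max (max m0 m1) 1, fun m hm => ?_⟩
  have h0 := hm0 m (((le_max_left _ _).trans (le_max_left _ _)).trans hm)
  have hmm1 : m1 ≤ m := ((le_max_right _ _).trans (le_max_left _ _)).trans hm
  have hm1' : (1 : ℝ) ≤ m := by
    have : 1 ≤ m := (le_max_right _ _).trans hm
    exact_mod_cast this
  have hmpos : (0 : ℝ) < m := by linarith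
  have hlog0 : 0 ≤ log (m : ℝ) := Real.log_nonneg hm1'
  have hmr : 1 / r ≤ (m : ℝ) ^ r := by
    have e1 : (1 / r) ^ (1 / r) ≤ (m : ℝ) := hm1.trans (by exact_mod_cast hmm1)
    calc 1 / r = ((1 / r) ^ (1 / r)) ^ r := by
          rw [← Real.rpow_mul (by positivity), one_div, inv_mul_cancel₀ hrpos.ne', Real.rpow_one]
      _ ≤ (m : ℝ) ^ r := Real.rpow_le_rpow (by positivity) e1 hrpos.le
  have hlog : log (m : ℝ) ≤ (m : ℝ) ^ r * (m : ℝ) ^ r := by
    calc log (m : ℝ) ≤ (m : ℝ) ^ r / r := Real.log_le_rpow_div hmpos.le hrpos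
      _ = (m : ℝ) ^ r * (1 / r) := by ring
      _ ≤ _ := mul_le_mul_of_nonneg_left hmr (by positivity)
  have e2 : (m : ℝ) ^ γ * ((m : ℝ) ^ r * (m : ℝ) ^ r) ≤ (m : ℝ) ^ (1 - r) := by
    rw [← Real.rpow_add hmpos, ← Real.rpow_add hmpos]
    apply Real.rpow_le_rpow_of_exponent_le hm1'
    rw [hrr]; linarith
  rw [one_mul] at h0
  calc (m : ℝ) ^ γ * (log (m : ℝ)) ^ 2 = ((m : ℝ) ^ γ * log m) * log m := by ring
    _ ≤ ((m : ℝ) ^ γ * ((m : ℝ) ^ r * (m : ℝ) ^ r)) * log m := by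
        apply mul_le_mul_of_nonneg_right _ hlog0
        exact mul_le_mul_of_nonneg_left hlog (by positivity)
    _ ≤ (m : ℝ) ^ (1 - r) * log m := mul_le_mul_of_nonneg_right e2 hlog0
    _ ≤ ((m : ℝ) ^ (1 - r) + 1) * log m := by
        apply mul_le_mul_of_nonneg_right _ hlog0
        linarith
    _ ≤ m := h0

lemma asym4 {a : ℝ} (ha : 0 < a) (C : ℝ) : ∃ m0 : ℕ, ∀ m : ℕ, m0 ≤ m → C ≤ (m : ℝ) ^ a := by
  obtain ⟨m0, hm0⟩ := exists_nat_ge ((max C 0) ^ (1 / a))
  refine ⟨m0, fun m hm => ?_⟩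
  have e1 : (max C 0) ^ (1 / a) ≤ (m : ℝ) := hm0.trans (by exact_mod_cast hm)
  have h0 : 0 ≤ max C 0 := le_max_right _ _
  calc C ≤ max C 0 := le_max_left _ _
    _ = ((max C 0) ^ (1 / a)) ^ a := by
        rw [← Real.rpow_mul h0, one_div, inv_mul_cancel₀ ha.ne', Real.rpow_one]
    _ ≤ (m : ℝ) ^ a := Real.rpow_le_rpow (by positivity) e1 ha.le

lemma block_bound {δ ε' α α' γ : ℝ} (hδ : 0 < δ) (hε' : 0 < ε') (hγ0 : 0 < γ) (hγ1 : γ < 1)
    (hα'0 : 0 < α') (hα'1 : α' < 1) (hα : α < γ * α') :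
    ∃ C : ℝ, 0 < C ∧ ∃ m0 : ℕ, ∀ m : ℕ, m0 ≤ m → ∀ Z : ℕ, 1 ≤ Z →
      log (Z : ℝ) ≤ 2 * (m : ℝ) ^ α →
      ∀ (D : ℕ → ℤ) (R : ℕ), 8 ≤ R → (∀ p : ℕ, p.Prime → R < p → QType D p) →
      ∀ s t : ℕ → ℝ, (∀ p, |s p| ≤ 1) → (∀ p, |t p| ≤ 1) →
      ∃ E : Finset ℕ, (E.card : ℝ) ≤ C * m * (Z : ℝ) ^ (4 / (5 - α') + ε') ∧
        ∀ n ∈ range Z, n ∉ E →
          |∑ p ∈ PR R m, s p * sg (t p) p (D n)| ≤ δ * m.primesBelow.card := by
  classical
  obtain ⟨C1, hC1, m1, h1⟩ := E_final (ε := δ / 2) (ε' := ε') (α := α') (by positivity) hε'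
    hα'0 hα'1
  obtain ⟨m2, h2⟩ := primes_lower
  obtain ⟨m3, h3⟩ := asym3 hγ1
  obtain ⟨m4, h4⟩ := asym2 (max 1 (16 / (γ ^ 2 * δ)))
  obtain ⟨m5, h5⟩ := asym4 (a := γ * α' - α) (by linarith) 2
  obtain ⟨m6, h6⟩ := asym4 hγ0 (max (m1 : ℝ) 1)
  refine ⟨2 * C1, by positivity, max (max (max m2 m3) (max m4 m5)) (max m6 1), ?_⟩
  intro m hm Z hZ hZm D R hR hQ s t hs ht
  have hm2 : m2 ≤ m := (((le_max_left m2 m3).trans (le_max_left _ _)).trans (le_max_left _ _)).trans hm
  have hm3 : m3 ≤ m := (((le_max_right m2 m3).trans (le_max_left _ _)).trans (le_max_left _ _)).trans hm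
  have hm4 : m4 ≤ m := (((le_max_left m4 m5).trans (le_max_right _ _)).trans (le_max_left _ _)).trans hm
  have hm5 : m5 ≤ m := (((le_max_right m4 m5).trans (le_max_right _ _)).trans (le_max_left _ _)).trans hm
  have hm6 : m6 ≤ m := ((le_max_left m6 1).trans (le_max_right _ _)).trans hm
  have hm11 : 1 ≤ m := ((le_max_right m6 1).trans (le_max_right _ _)).trans hm
  replace h2 := h2 m hm2
  replace h3 := h3 m hm3
  replace h4 := h4 m hm4
  replace h5 := h5 m hm5
  replace h6 := h6 m hm6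
  have hlm1 : 1 ≤ log (m : ℝ) := (le_max_left _ _).trans h4
  have hlm2 : 16 / (γ ^ 2 * δ) ≤ log (m : ℝ) := (le_max_right _ _).trans h4
  have hlm : 0 < log (m : ℝ) := by linarith
  have hm1r : (1 : ℝ) ≤ m := by exact_mod_cast hm11
  have hmpos : (0 : ℝ) < m := by linarith
  set lm : ℝ := log (m : ℝ) with hlmdef
  set L : ℕ := ⌊lm ^ 2⌋₊ with hL
  have hL1 : 1 ≤ L := by
    rw [hL]; apply Nat.le_floor; push_cast; exact one_le_pow₀ hlm1
  have hLle : (L : ℝ) ≤ lm ^ 2 := Nat.floor_le (by positivity)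
  have hLlt : lm ^ 2 < L + 1 := Nat.lt_floor_add_one _
  set I : ℕ := Nat.log 2 L with hI
  have hIs : 2 ^ I ≤ L := Nat.pow_log_le_self 2 (by omega)
  have hIs2 : L < 2 ^ (I + 1) := Nat.lt_pow_succ_log_self (by norm_num) L
  have hIr : (2 : ℝ) ^ I ≤ lm ^ 2 := le_trans (by exact_mod_cast hIs) hLle
  have hIr2 : lm ^ 2 ≤ 2 * (2 : ℝ) ^ I := by
    have : (L : ℝ) + 1 ≤ (2 : ℝ) ^ (I + 1) := by exact_mod_cast hIs2
    rw [pow_succ] at this
    linarith
  have hmγ1 : 1 ≤ (m : ℝ) ^ γ := (le_max_right _ _).trans h6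
  have hmi : ∀ i ∈ range I, (m : ℝ) ^ γ ≤ ((m / 2 ^ i : ℕ) : ℝ) := by
    intro i hi
    have e1 : (2 : ℝ) ^ (i + 1) ≤ 2 ^ I :=
      pow_le_pow_right₀ (by norm_num) (by have := Finset.mem_range.1 hi; omega)
    have e2 : (2 : ℝ) ^ i * 2 ≤ lm ^ 2 := by rw [← pow_succ]; exact e1.trans hIr
    have e3 : (m : ℝ) / 2 ^ i < ((m / 2 ^ i : ℕ) : ℝ) + 1 := by
      rw [div_lt_iff₀ (by positivity)]
      have e4 : m < (m / 2 ^ i + 1) * 2 ^ i := by
        have := Nat.lt_mul_div_succ m (show 0 < 2 ^ i by positivity)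
        rw [mul_comm]; exact this
      exact_mod_cast e4
    have e4 : 2 * (m : ℝ) ^ γ ≤ (m : ℝ) / 2 ^ i := by
      rw [le_div_iff₀ (by positivity)]
      calc 2 * (m : ℝ) ^ γ * 2 ^ i = (m : ℝ) ^ γ * (2 ^ i * 2) := by ring
        _ ≤ (m : ℝ) ^ γ * lm ^ 2 := mul_le_mul_of_nonneg_left e2 (by positivity)
        _ ≤ m := h3
    linarith
  have hm1i : ∀ i ∈ range I, m1 ≤ m / 2 ^ i := by
    intro i hi
    have : (m1 : ℝ) ≤ ((m / 2 ^ i : ℕ) : ℝ) := (le_max_left _ _).trans (h6.trans (hmi i hi))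
    exact_mod_cast this
  have hZs : ∀ i ∈ range I, log (Z : ℝ) ≤ (((m / 2 ^ i : ℕ) : ℝ)) ^ α' := by
    intro i hi
    calc log (Z : ℝ) ≤ 2 * (m : ℝ) ^ α := hZm
      _ ≤ (m : ℝ) ^ (γ * α' - α) * (m : ℝ) ^ α := mul_le_mul_of_nonneg_right h5 (by positivity)
      _ = ((m : ℝ) ^ γ) ^ α' := by
          rw [← Real.rpow_add hmpos, ← Real.rpow_mul hmpos.le]; congr 1; ring
      _ ≤ _ := Real.rpow_le_rpow (by positivity) (hmi i hi) hα'0.le
  have hlogs : ∀ i ∈ range I, γ * lm ≤ log ((m / 2 ^ i : ℕ) : ℝ) := by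
    intro i hi
    have e1 := Real.log_le_log (by positivity) (hmi i hi)
    rwa [Real.log_rpow hmpos] at e1
  have hmi2 : ∀ i, ((m / 2 ^ i : ℕ) : ℝ) ≤ m * (1 / 2) ^ i := by
    intro i
    have := Nat.cast_div_le (α := ℝ) (m := m) (n := 2 ^ i)
    refine this.trans (le_of_eq ?_)
    push_cast
    rw [one_div, inv_pow, div_eq_mul_inv]
  have habs : ∀ p n, |s p * sg (t p) p (D n)| ≤ 1 := by
    intro p n
    rw [abs_mul]
    exact mul_le_one₀ (hs p) (abs_nonneg _) (abs_sg (ht p) p _)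
  set big : ℕ → Prop := fun i =>
    ((m / 2 ^ i : ℕ) : ℝ) / (log ((m / 2 ^ i : ℕ) : ℝ)) ^ 2 ≤ (BL R m i).card with hbig
  set Em : ℕ → Finset ℕ := fun i => (range Z).filter (fun n : ℕ =>
    δ / 2 * (BL R m i).card ≤ |∑ p ∈ BL R m i, s p * sg (t p) p (D n)|) with hEm
  set E : Finset ℕ := (range I).biUnion (fun i => if big i then Em i else ∅) with hE
  refine ⟨E, ?_, ?_⟩
  · have hEmi : ∀ i ∈ range I, big i →
        ((Em i).card : ℝ) ≤ C1 * (m * (1 / 2) ^ i) * (Z : ℝ) ^ (4 / (5 - α') + ε') := by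
      intro i hi hb
      have hQ' : ∀ p ∈ BL R m i, QType D p := fun p hp =>
        hQ p (BL_props hp).1 (BL_props hp).2.1
      have hex : ∀ p : ℕ, ∃ g : ℕ → ℝ, p ∈ BL R m i →
          MZ p g ∧ (∀ n, |g n| ≤ 4 / 3) ∧ ∀ n, |s p * sg (t p) p (D n) - g n| ≤ 3 / p := by
        intro p
        by_cases hp : p ∈ BL R m i
        · obtain ⟨g, hg1, hg2, hg3⟩ := (hQ' p hp).exists_gg (by
            have := (BL_props hp).2.1; omega) (ht p)
          refine ⟨fun n => s p * g n, fun _ => ⟨hg1.smul _, fun n => ?_, fun n => ?_⟩⟩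
          · rw [abs_mul]
            calc |s p| * |g n| ≤ 1 * (4 / 3) :=
                  mul_le_mul (hs p) (hg2 n) (abs_nonneg _) (by norm_num)
              _ = 4 / 3 := one_mul _
          · rw [← mul_sub, abs_mul]
            calc |s p| * |sg (t p) p (D n) - g n| ≤ 1 * (3 / p) :=
                  mul_le_mul (hs p) (hg3 n) (abs_nonneg _) (by norm_num)
              _ = 3 / p := one_mul _
        · exact ⟨0, fun h => absurd h hp⟩
      choose g hg using hex
      have e1 := h1 (m / 2 ^ i) (hm1i i hi) Z hZ (hZs i hi) (BL R m i)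
        (fun p n => s p * sg (t p) p (D n)) g
        (fun p hp => (BL_props hp).1) (fun p hp => by have := (BL_props hp).2.1; omega)
        (fun p hp => (BL_props hp).2.2.1) (fun p hp => (BL_props hp).2.2.2)
        (fun p hp => (hg p hp).1) (fun p hp => (hg p hp).2.1) (fun p hp => (hg p hp).2.2) hb 0
      simp only [Nat.zero_add] at e1
      refine e1.trans ?_
      apply mul_le_mul_of_nonneg_right _ (by positivity)
      exact mul_le_mul_of_nonneg_left (hmi2 i) hC1.le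
    have e1 : (E.card : ℝ) ≤
        ∑ i ∈ range I, (C1 * (m * (1 / 2) ^ i) * (Z : ℝ) ^ (4 / (5 - α') + ε')) := by
      have e2 : E.card ≤ ∑ i ∈ range I, (if big i then Em i else ∅).card :=
        Finset.card_biUnion_le
      calc (E.card : ℝ) ≤ ((∑ i ∈ range I, (if big i then Em i else ∅).card : ℕ) : ℝ) := by
            exact_mod_cast e2
        _ = ∑ i ∈ range I, ((if big i then Em i else ∅).card : ℝ) := by push_cast; rfl
        _ ≤ _ := by
          apply Finset.sum_le_sum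
          intro i hi
          by_cases hb : big i
          · rw [if_pos hb]
            exact hEmi i hi hb
          · rw [if_neg hb, Finset.card_empty]
            push_cast
            positivity
    refine e1.trans ?_
    have e2 : ∀ i ∈ range I, (C1 * (m * (1 / 2) ^ i) * (Z : ℝ) ^ (4 / (5 - α') + ε'))
        = (C1 * m * (Z : ℝ) ^ (4 / (5 - α') + ε')) * (1 / 2) ^ i := fun i _ => by ring
    rw [Finset.sum_congr rfl e2, ← Finset.mul_sum]
    have e3 := sum_geometric_two_le I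
    calc (C1 * m * (Z : ℝ) ^ (4 / (5 - α') + ε')) * ∑ i ∈ range I, (1 / 2 : ℝ) ^ i
        ≤ (C1 * m * (Z : ℝ) ^ (4 / (5 - α') + ε')) * 2 :=
          mul_le_mul_of_nonneg_left e3 (by positivity)
      _ = _ := by ring
  · intro n hn hnE
    have hnot : ∀ i ∈ range I, |∑ p ∈ BL R m i, s p * sg (t p) p (D n)| ≤
        δ / 2 * (BL R m i).card + m * (1 / 2) ^ i / (γ * lm) ^ 2 := by
      intro i hi
      have hl := hlogs i hi
      have hl0 : 0 < γ * lm := by positivity
      by_cases hb : big i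
      · have h5 : n ∉ Em i := by
          intro h
          apply hnE
          rw [hE, Finset.mem_biUnion]
          exact ⟨i, hi, by rw [if_pos hb]; exact h⟩
        rw [hEm] at h5
        simp only [Finset.mem_filter, not_and] at h5
        have h7 := h5 hn
        push Not at h7
        have : 0 ≤ m * (1 / 2) ^ i / (γ * lm) ^ 2 := by positivity
        linarith
      · rw [hbig] at hb
        push Not at hb
        have h5 : |∑ p ∈ BL R m i, s p * sg (t p) p (D n)| ≤ (BL R m i).card := by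
          calc |∑ p ∈ BL R m i, s p * sg (t p) p (D n)|
              ≤ ∑ p ∈ BL R m i, |s p * sg (t p) p (D n)| := Finset.abs_sum_le_sum_abs _ _
            _ ≤ ∑ _p ∈ BL R m i, (1 : ℝ) := Finset.sum_le_sum (fun p _ => habs p n)
            _ = (BL R m i).card := by rw [Finset.sum_const, nsmul_eq_mul, mul_one]
        have h6 : ((m / 2 ^ i : ℕ) : ℝ) / (log ((m / 2 ^ i : ℕ) : ℝ)) ^ 2
            ≤ m * (1 / 2) ^ i / (γ * lm) ^ 2 := by
          apply div_le_div₀ (by positivity) (hmi2 i) (by positivity)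
          exact pow_le_pow_left₀ hl0.le hl 2
        have : 0 ≤ δ / 2 * ((BL R m i).card : ℝ) := by positivity
        linarith
    have htail : |∑ p ∈ TL R m I, s p * sg (t p) p (D n)| ≤ 2 * m / lm ^ 2 := by
      have e1 : |∑ p ∈ TL R m I, s p * sg (t p) p (D n)| ≤ (TL R m I).card := by
        calc |∑ p ∈ TL R m I, s p * sg (t p) p (D n)|
            ≤ ∑ p ∈ TL R m I, |s p * sg (t p) p (D n)| := Finset.abs_sum_le_sum_abs _ _
          _ ≤ ∑ _p ∈ TL R m I, (1 : ℝ) := Finset.sum_le_sum (fun p _ => habs p n)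
          _ = (TL R m I).card := by rw [Finset.sum_const, nsmul_eq_mul, mul_one]
      have e2 : (TL R m I).card ≤ m / 2 ^ I := by
        have hsub : TL R m I ⊆ (Finset.range (m / 2 ^ I + 1)).erase 0 := by
          intro p hp
          unfold TL PR at hp
          rw [Finset.mem_filter, Finset.mem_filter] at hp
          have := (Nat.prime_of_mem_primesBelow hp.1.1).pos
          rw [Finset.mem_erase, Finset.mem_range]
          omega
        have := Finset.card_le_card hsub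
        rw [Finset.card_erase_of_mem (by simp), Finset.card_range] at this
        simpa using this
      have e3 : ((TL R m I).card : ℝ) ≤ ((m / 2 ^ I : ℕ) : ℝ) := by exact_mod_cast e2
      have e4 : ((m / 2 ^ I : ℕ) : ℝ) ≤ (m : ℝ) / 2 ^ I := by
        have := Nat.cast_div_le (α := ℝ) (m := m) (n := 2 ^ I)
        push_cast at this
        exact this
      have e5 : (m : ℝ) / 2 ^ I ≤ 2 * m / lm ^ 2 := by
        rw [div_le_div_iff₀ (by positivity) (by positivity)]
        nlinarith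
      linarith
    rw [sum_blocks (fun p => s p * sg (t p) p (D n)) R m I]
    have e1 : |∑ i ∈ range I, ∑ p ∈ BL R m i, s p * sg (t p) p (D n)| ≤
        δ / 2 * (PR R m).card + 2 * m / (γ * lm) ^ 2 := by
      have e2 : ∑ i ∈ range I, ((BL R m i).card : ℝ) ≤ (PR R m).card := by
        have e3 := sum_blocks (fun _ => (1 : ℝ)) R m I
        simp only [Finset.sum_const, nsmul_eq_mul, mul_one] at e3
        rw [e3]
        have : (0 : ℝ) ≤ (TL R m I).card := Nat.cast_nonneg _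
        linarith
      have e4 : ∑ i ∈ range I, m * (1 / 2 : ℝ) ^ i / (γ * lm) ^ 2
          ≤ 2 * m / (γ * lm) ^ 2 := by
        have e5 : ∀ i ∈ range I, m * (1 / 2 : ℝ) ^ i / (γ * lm) ^ 2
            = (m / (γ * lm) ^ 2) * (1 / 2) ^ i := fun i _ => by ring
        rw [Finset.sum_congr rfl e5, ← Finset.mul_sum]
        calc (m / (γ * lm) ^ 2) * ∑ i ∈ range I, (1 / 2 : ℝ) ^ i
            ≤ (m / (γ * lm) ^ 2) * 2 :=
              mul_le_mul_of_nonneg_left (sum_geometric_two_le I) (by positivity)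
          _ = _ := by ring
      calc |∑ i ∈ range I, ∑ p ∈ BL R m i, s p * sg (t p) p (D n)|
          ≤ ∑ i ∈ range I, |∑ p ∈ BL R m i, s p * sg (t p) p (D n)| :=
            Finset.abs_sum_le_sum_abs _ _
        _ ≤ ∑ i ∈ range I, (δ / 2 * (BL R m i).card + m * (1 / 2) ^ i / (γ * lm) ^ 2) :=
            Finset.sum_le_sum hnot
        _ = δ / 2 * ∑ i ∈ range I, ((BL R m i).card : ℝ)
            + ∑ i ∈ range I, m * (1 / 2 : ℝ) ^ i / (γ * lm) ^ 2 := by
            rw [Finset.sum_add_distrib, ← Finset.mul_sum]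
        _ ≤ _ := by
            have := mul_le_mul_of_nonneg_left e2 (show 0 ≤ δ / 2 by positivity)
            linarith
    have e6 : ((PR R m).card : ℝ) ≤ m.primesBelow.card := by
      exact_mod_cast Finset.card_le_card (Finset.filter_subset _ _)
    have hlm3 : 16 ≤ γ ^ 2 * δ * lm := by
      rw [div_le_iff₀ (by positivity)] at hlm2
      linarith
    have e7 : 2 * m / (γ * lm) ^ 2 ≤ δ / 4 * m.primesBelow.card := by
      have e8 : 2 * m / (γ * lm) ^ 2 ≤ δ / 4 * ((m : ℝ) / (2 * lm)) := by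
        have e9 : δ / 4 * ((m : ℝ) / (2 * lm)) = (γ ^ 2 * δ * lm / 8 * m) / (γ * lm) ^ 2 := by
          field_simp
          ring
        rw [e9]
        apply div_le_div_of_nonneg_right _ (by positivity)
        apply mul_le_mul_of_nonneg_right _ hmpos.le
        linarith
      refine e8.trans ?_
      exact mul_le_mul_of_nonneg_left h2 (by positivity)
    have e10 : 2 * m / lm ^ 2 ≤ δ / 4 * m.primesBelow.card := by
      refine le_trans ?_ e7
      apply div_le_div_of_nonneg_left (by positivity) (by positivity)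
      rw [mul_pow]
      have : γ ^ 2 ≤ 1 := pow_le_one₀ hγ0.le hγ1.le
      nlinarith [sq_nonneg lm]
    have e12 := abs_add_le (∑ i ∈ range I, ∑ p ∈ BL R m i, s p * sg (t p) p (D n))
      (∑ p ∈ TL R m I, s p * sg (t p) p (D n))
    have e13 := mul_le_mul_of_nonneg_left e6 (show 0 ≤ δ / 2 by positivity)
    linarith

end MPaaa0dfExp
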