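import Pool.Agent.W_aaa0df_h13.Moment
import Pool.Agent.W_MP_aaa0df_nt.PBound

set_option autoImplicit false

namespace MPaaa0dfExp

open Finset MPaaa0df

lemma count_bound {k b K m : ℕ} (T : Fin k × Fin b → ℕ) (g : ℕ → ℕ → ℝ)
    (hT : Function.Injective T) (hprime : ∀ x, (T x).Prime) (hlt : ∀ x, T x ≤ m)
    (h3' : ∀ x, 3 ≤ T x) (hgt : ∀ x, m < 2 * T x)
    (hg : ∀ x, MZ (T x) (g (T x)))
    (hgc : ∀ x y, |g (T x) y| ≤ 4 / 3) (n₀ : ℕ) (Z : ℕ)
    {δ : ℝ} (hδ : 0 < δ) (hb : 0 < b) (hK : (K : ℝ) ≤ 3 / 8 * δ * k) :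
    (((range Z).filter (fun n : ℕ => δ * (k * b) ≤
      |∑ i : Fin k, ∑ j : Fin b, g (T (i, j)) (n₀ + n)|)).card : ℝ)
      ≤ 2 ^ k * (8 / (3 * δ)) ^ (2 * K) * (Z / (b : ℝ) ^ K + ((m : ℝ) ^ 4) ^ K) := by
  set E := (range Z).filter (fun n : ℕ => δ * (k * b) ≤
      |∑ i : Fin k, ∑ j : Fin b, g (T (i, j)) (n₀ + n)|) with hE
  have hb' : (0 : ℝ) < b := by exact_mod_cast hb
  have h1 : (E.card : ℝ) * (δ * b / 2) ^ (2 * K) ≤
      ∑ n ∈ range Z, ∑ I ∈ powersetCard K (univ : Finset (Fin k)),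
        ∏ i ∈ I, (∑ j, g (T (i, j)) (n₀ + n)) ^ 2 := by
    calc (E.card : ℝ) * (δ * b / 2) ^ (2 * K) = ∑ _n ∈ E, (δ * b / 2) ^ (2 * K) := by
          rw [Finset.sum_const, nsmul_eq_mul]
      _ ≤ ∑ n ∈ E, ∑ I ∈ powersetCard K (univ : Finset (Fin k)),
        ∏ i ∈ I, (∑ j, g (T (i, j)) (n₀ + n)) ^ 2 := by
          apply Finset.sum_le_sum
          intro n hn
          exact one_le_sum hδ hb (fun i j => g (T (i, j)) (n₀ + n)) (fun i j => hgc _ _) hK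
            (Finset.mem_filter.1 hn).2
      _ ≤ _ := by
          apply Finset.sum_le_sum_of_subset_of_nonneg (Finset.filter_subset _ _)
          intro n _ _
          apply Finset.sum_nonneg
          intro I _
          exact Finset.prod_nonneg (fun i _ => sq_nonneg _)
  rw [Finset.sum_comm] at h1
  have h2 : ∀ I ∈ powersetCard K (univ : Finset (Fin k)),
      ∑ n ∈ range Z, ∏ i ∈ I, (∑ j, g (T (i, j)) (n₀ + n)) ^ 2 ≤
      (4 / 3 : ℝ) ^ (2 * K) * (Z * (b : ℝ) ^ K + (b : ℝ) ^ (2 * K) * ((m : ℝ) ^ 4) ^ K) := by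
    intro I hI
    have hIK : I.card = K := (Finset.mem_powersetCard.1 hI).2
    have h3 := moment (κ := ↥I) (b := b) m (fun x => T (x.1.1, x.2)) g (4 / 3)
      (by
        intro x y hxy
        have := hT hxy
        rw [Prod.mk.injEq] at this
        exact Prod.ext (Subtype.ext this.1) this.2)
      (fun x => hprime _) (fun x => hlt _) (fun x => h3' _) (fun x => hgt _) (fun x => hg _)
      (by norm_num) (fun x n => hgc _ n) n₀ Z
    rw [Fintype.card_coe, hIK] at h3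
    refine le_trans (le_of_eq ?_) h3
    apply Finset.sum_congr rfl
    intro n _
    exact (Finset.prod_coe_sort I (fun i => (∑ j, g (T (i, j)) (n₀ + n)) ^ 2)).symm
  have h4 := h1.trans (Finset.sum_le_sum h2)
  rw [Finset.sum_const, Finset.card_powersetCard, Finset.card_univ, Fintype.card_fin,
    nsmul_eq_mul] at h4
  have h5 : ((k.choose K : ℕ) : ℝ) ≤ 2 ^ k := by exact_mod_cast Nat.choose_le_two_pow k K
  have hpos : (0 : ℝ) < (δ * b / 2) ^ (2 * K) := by positivity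
  rw [← le_div_iff₀ hpos] at h4
  refine h4.trans ?_
  rw [div_le_iff₀ hpos]
  have h6 : 2 ^ k * (8 / (3 * δ)) ^ (2 * K) * (Z / (b : ℝ) ^ K + ((m : ℝ) ^ 4) ^ K)
      * (δ * b / 2) ^ (2 * K)
      = 2 ^ k * ((4 / 3 : ℝ) ^ (2 * K) *
        (Z * (b : ℝ) ^ K + (b : ℝ) ^ (2 * K) * ((m : ℝ) ^ 4) ^ K)) := by
    have h7 : (8 / (3 * δ)) ^ (2 * K) * (δ * b / 2) ^ (2 * K)
        = (4 / 3 : ℝ) ^ (2 * K) * (b : ℝ) ^ (2 * K) := by
      rw [← mul_pow, ← mul_pow]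
      congr 1
      field_simp
      ring
    have h8 : (Z / (b : ℝ) ^ K) * (b : ℝ) ^ (2 * K) = Z * (b : ℝ) ^ K := by
      rw [two_mul, pow_add]
      field_simp
    calc _ = 2 ^ k * (Z / (b : ℝ) ^ K + ((m : ℝ) ^ 4) ^ K) *
          ((8 / (3 * δ)) ^ (2 * K) * (δ * b / 2) ^ (2 * K)) := by ring
      _ = 2 ^ k * (4 / 3 : ℝ) ^ (2 * K) * ((Z / (b : ℝ) ^ K) * (b : ℝ) ^ (2 * K)
          + ((m : ℝ) ^ 4) ^ K * (b : ℝ) ^ (2 * K)) := by rw [h7]; ring
      _ = _ := by rw [h8]; ring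
  rw [h6]
  apply mul_le_mul_of_nonneg_right h5
  positivity

lemma P_count {P : Finset ℕ} {m : ℕ} (χ g : ℕ → ℕ → ℝ)
    (hprime : ∀ p ∈ P, p.Prime) (h3' : ∀ p ∈ P, 3 ≤ p) (hgt : ∀ p ∈ P, m < 2 * p)
    (hlt : ∀ p ∈ P, p ≤ m) (hg : ∀ p ∈ P, MZ p (g p))
    (hgc : ∀ p ∈ P, ∀ x, |g p x| ≤ 4 / 3)
    (hχ : ∀ p ∈ P, ∀ x, |χ p x - g p x| ≤ 3 / p)
    {ε : ℝ} (hε : 0 < ε) {q K b : ℕ} (hq : 16 / (3 * ε) ≤ q) (hb : 0 < b)
    (hkb : q * K * b ≤ P.card) (hkb2 : P.card ≤ q * K * b + q * K)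
    (hbig : 4 / 3 * ((q : ℝ) * K) + 72 / ε ≤ 3 * ε / 8 * P.card) (n₀ : ℕ) (Z : ℕ) :
    (((range Z).filter (fun n : ℕ => ε * P.card ≤ |∑ p ∈ P, χ p (n₀ + n)|)).card : ℝ) ≤
      (2 ^ q * (16 / (3 * ε)) ^ 2) ^ K * (Z / (b : ℝ) ^ K + ((m : ℝ) ^ 4) ^ K) := by
  have hcard : Fintype.card (Fin (q * K) × Fin b) ≤ Fintype.card ↥P := by
    rw [Fintype.card_prod, Fintype.card_fin, Fintype.card_fin, Fintype.card_coe]
    exact hkb
  obtain ⟨e⟩ := Function.Embedding.nonempty_of_card_le hcard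
  set T : Fin (q * K) × Fin b → ℕ := fun x => ((e x : ↥P) : ℕ) with hTdef
  have hTP : ∀ x, T x ∈ P := fun x => (e x).2
  have hT : Function.Injective T := by
    intro x y hxy
    exact e.injective (Subtype.ext hxy)
  have hδ : 0 < ε / 2 := by positivity
  have hK : (K : ℝ) ≤ 3 / 8 * (ε / 2) * ((q * K : ℕ) : ℝ) := by
    have h1 : 1 ≤ 3 / 8 * (ε / 2) * q := by
      rw [div_le_iff₀ (by positivity)] at hq
      nlinarith
    push_cast
    have hK0 : (0 : ℝ) ≤ K := Nat.cast_nonneg _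
    nlinarith
  have hmain := count_bound (K := K) (m := m) T g hT (fun x => hprime _ (hTP x))
    (fun x => hlt _ (hTP x)) (fun x => h3' _ (hTP x)) (fun x => hgt _ (hTP x))
    (fun x => hg _ (hTP x)) (fun x n => hgc _ (hTP x) n) n₀ Z hδ hb hK
  have hsub : ((range Z).filter (fun n : ℕ => ε * P.card ≤ |∑ p ∈ P, χ p (n₀ + n)|)) ⊆
      ((range Z).filter (fun n : ℕ => ε / 2 * (((q * K : ℕ) : ℝ) * b) ≤
      |∑ i : Fin (q * K), ∑ j : Fin b, g (T (i, j)) (n₀ + n)|)) := by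
    intro n hn
    rw [Finset.mem_filter] at hn ⊢
    refine ⟨hn.1, ?_⟩
    have hn2 := hn.2
    set x : ℕ := n₀ + n
    -- split the sum over P
    have h1 : ∑ p ∈ P, χ p x = ∑ p ∈ P, g p x + ∑ p ∈ P, (χ p x - g p x) := by
      rw [← Finset.sum_add_distrib]
      apply Finset.sum_congr rfl
      intro p _; ring
    have h2 : |∑ p ∈ P, (χ p x - g p x)| ≤ 3 * (24 / ε + P.card / (24 / ε)) := by
      refine (Finset.abs_sum_le_sum_abs _ _).trans ?_
      refine (Finset.sum_le_sum (fun p hp => hχ p hp x)).trans ?_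
      have h3 : ∀ p ∈ P, (3 : ℝ) / p = 3 * (1 / p) := fun p _ => by ring
      rw [Finset.sum_congr rfl h3, ← Finset.mul_sum]
      apply mul_le_mul_of_nonneg_left _ (by norm_num)
      exact sum_inv_le (fun p hp => (hprime p hp).two_le) (by positivity)
    set I : Finset ℕ := univ.image T with hI
    have hIP : I ⊆ P := by
      intro p hp
      obtain ⟨y, _, rfl⟩ := Finset.mem_image.1 hp
      exact hTP y
    have hIcard : I.card = q * K * b := by
      rw [hI, Finset.card_image_of_injective _ hT, card_univ, Fintype.card_prod, Fintype.card_fin,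
        Fintype.card_fin]
    have h3 : ∑ p ∈ P, g p x = ∑ p ∈ P \ I, g p x + ∑ p ∈ I, g p x :=
      (Finset.sum_sdiff hIP).symm
    have h4 : ∑ p ∈ I, g p x = ∑ i : Fin (q * K), ∑ j : Fin b, g (T (i, j)) x := by
      rw [hI, Finset.sum_image (fun a _ b _ h => hT h), Fintype.sum_prod_type]
    have h5 : |∑ p ∈ P \ I, g p x| ≤ 4 / 3 * ((q : ℝ) * K) := by
      have hc : (P \ I).card ≤ q * K := by
        rw [Finset.card_sdiff_of_subset hIP, hIcard]; omega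
      calc |∑ p ∈ P \ I, g p x| ≤ ∑ p ∈ P \ I, |g p x| := Finset.abs_sum_le_sum_abs _ _
        _ ≤ ∑ _p ∈ P \ I, (4 / 3 : ℝ) :=
          Finset.sum_le_sum (fun p hp => hgc p (Finset.mem_sdiff.1 hp).1 x)
        _ = (P \ I).card * (4 / 3 : ℝ) := by rw [Finset.sum_const, nsmul_eq_mul]
        _ ≤ ((q * K : ℕ) : ℝ) * (4 / 3 : ℝ) := by
          apply mul_le_mul_of_nonneg_right _ (by norm_num)
          exact_mod_cast hc
        _ = 4 / 3 * ((q : ℝ) * K) := by push_cast; ring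
    rw [h1, h3, h4] at hn2
    have h6 : ε * P.card ≤ |∑ i : Fin (q * K), ∑ j : Fin b, g (T (i, j)) x|
        + 4 / 3 * ((q : ℝ) * K) + 3 * (24 / ε + P.card / (24 / ε)) := by
      refine hn2.trans ?_
      refine (abs_add_le _ _).trans ?_
      have := abs_add_le (∑ p ∈ P \ I, g p x) (∑ i : Fin (q * K), ∑ j : Fin b, g (T (i, j)) x)
      linarith
    have h7 : 3 * (24 / ε + (P.card : ℝ) / (24 / ε)) = 72 / ε + ε / 8 * P.card := by
      field_simp
      ring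
    rw [h7] at h6
    have h8 : (((q * K : ℕ) : ℝ) * b) ≤ P.card := by exact_mod_cast hkb
    have h9 : ε / 2 * (((q * K : ℕ) : ℝ) * b) ≤ ε / 2 * P.card :=
      mul_le_mul_of_nonneg_left h8 hδ.le
    linarith
  have h10 := Finset.card_le_card hsub
  have h11 : (((range Z).filter (fun n : ℕ => ε * P.card ≤ |∑ p ∈ P, χ p (n₀ + n)|)).card : ℝ)
      ≤ _ := le_trans (by exact_mod_cast h10) hmain
  refine h11.trans (le_of_eq ?_)
  congr 1
  rw [pow_mul, pow_mul, ← mul_pow]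
  congr 2
  field_simp
  norm_num

end MPaaa0dfExp
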