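import Pool.Agent.W_aaa0df_h13.Count
import Pool.Agent.W_MP_aaa0df_nt.Asym

set_option autoImplicit false

namespace MPaaa0dfExp

open Finset Real MPaaa0df

lemma log_le_two_sqrt {m : ℝ} (hm : 0 < m) : log m ≤ 2 * (√m + 1) := by
  have e2 : log m = 2 * log (√m) := by
    rw [Real.log_sqrt hm.le]; ring
  rw [e2]
  have := Real.log_le_sub_one_of_pos (Real.sqrt_pos.2 hm)
  linarith

/-- the main count for fixed `m` -/
lemma E_final {ε ε' α : ℝ} (hε : 0 < ε) (hε' : 0 < ε') (hα0 : 0 < α) (hα1 : α < 1) :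
    ∃ C : ℝ, 0 < C ∧ ∃ m0 : ℕ, ∀ m : ℕ, m0 ≤ m → ∀ Z : ℕ, 1 ≤ Z → log (Z : ℝ) ≤ (m : ℝ) ^ α →
      ∀ (P : Finset ℕ) (χ g : ℕ → ℕ → ℝ), (∀ p ∈ P, p.Prime) → (∀ p ∈ P, 3 ≤ p) →
      (∀ p ∈ P, m < 2 * p) → (∀ p ∈ P, p ≤ m) → (∀ p ∈ P, MZ p (g p)) →
      (∀ p ∈ P, ∀ x, |g p x| ≤ 4 / 3) → (∀ p ∈ P, ∀ x, |χ p x - g p x| ≤ 3 / p) →
      (m : ℝ) / (log m) ^ 2 ≤ P.card → ∀ n₀ : ℕ,
      (((range Z).filter (fun n : ℕ => ε * P.card ≤ |∑ p ∈ P, χ p (n₀ + n)|)).card : ℝ)
        ≤ C * m * (Z : ℝ) ^ (4 / (5 - α) + ε') := by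
  classical
  have h5α : 0 < 5 - α := by linarith
  set w : ℝ := 1 / (5 - α) with hw
  have hwpos : 0 < w := by positivity
  have hw4 : 4 / (5 - α) = 4 * w := by rw [hw]; ring
  have hw1 : (1 - α) * w + 4 * w = 1 := by rw [hw]; field_simp; ring
  set q : ℕ := ⌈16 / (3 * ε)⌉₊ with hq
  have hqr : 16 / (3 * ε) ≤ (q : ℝ) := Nat.le_ceil _
  have hq0r : (0 : ℝ) < q := lt_of_lt_of_le (by positivity) hqr
  have hq0 : 0 < q := by exact_mod_cast hq0r
  set A : ℝ := max 1 (2 ^ q * (16 / (3 * ε)) ^ 2) with hA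
  have hA1 : 1 ≤ A := le_max_left _ _
  have hA2 : 2 ^ q * (16 / (3 * ε)) ^ 2 ≤ A := le_max_right _ _
  set A3 : ℝ := max 1 (2 * q * w) with hA3
  have hA31 : 1 ≤ A3 := le_max_left _ _
  have hA32 : 2 * q * w ≤ A3 := le_max_right _ _
  obtain ⟨m1, h1⟩ := asym1r hα1 (64 / (9 * ε) * (q * w))
  obtain ⟨m2, h2⟩ := asym1 (768 / ε ^ 2)
  obtain ⟨m3, h3⟩ := asym2 1
  obtain ⟨m4, h4⟩ := asym2 (2 * w / ε' * log (A * A3))
  obtain ⟨m5, h5⟩ := asym2 ((4 * w / ε') ^ 2)
  obtain ⟨m6, h6⟩ := asym1r hα1 (2 * (q * w))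
  refine ⟨2, by norm_num, max (max (max m1 m2) (max m3 m4)) (max m5 m6), ?_⟩
  intro m hm Z hZ hZm P χ g hprime h3' hgt hlt hg hgle hχg hPcard n₀
  have hm1 : m1 ≤ m := (((le_max_left m1 m2).trans (le_max_left _ _)).trans (le_max_left _ _)).trans hm
  have hm2 : m2 ≤ m := (((le_max_right m1 m2).trans (le_max_left _ _)).trans (le_max_left _ _)).trans hm
  have hm3 : m3 ≤ m := (((le_max_left m3 m4).trans (le_max_right _ _)).trans (le_max_left _ _)).trans hm
  have hm4 : m4 ≤ m := (((le_max_right m3 m4).trans (le_max_right _ _)).trans (le_max_left _ _)).trans hm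
  have hm5 : m5 ≤ m := ((le_max_left m5 m6).trans (le_max_right _ _)).trans hm
  have hm6 : m6 ≤ m := ((le_max_right m5 m6).trans (le_max_right _ _)).trans hm
  replace h1 := h1 m hm1
  replace h2 := h2 m hm2
  replace h3 := h3 m hm3
  replace h4 := h4 m hm4
  replace h5 := h5 m hm5
  replace h6 := h6 m hm6
  clear hm1 hm2 hm3 hm4 hm5 hm6 hm m1 m2 m3 m4 m5 m6
  set lm : ℝ := log (m : ℝ) with hlm
  have hlmpos : 0 < lm := by linarith
  have hmpos : (0 : ℝ) < m := by
    rcases Nat.eq_zero_or_pos m with h | h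
    · rw [h] at hlm; simp at hlm; linarith
    · exact_mod_cast h
  have hm1 : (1 : ℝ) ≤ m := by
    have : 1 ≤ m := by
      have : 0 < m := by exact_mod_cast hmpos
      omega
    exact_mod_cast this
  set s : ℝ := (m : ℝ) ^ α with hs
  set s' : ℝ := (m : ℝ) ^ (1 - α) with hs'
  have hs1 : 1 ≤ s := Real.one_le_rpow hm1 hα0.le
  have hs'1 : 1 ≤ s' := Real.one_le_rpow hm1 (by linarith)
  have hss : s * s' = m := by
    rw [hs, hs', ← Real.rpow_add hmpos]
    have : α + (1 - α) = 1 := by ring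
    rw [this, Real.rpow_one]
  have hZr : (1 : ℝ) ≤ Z := by exact_mod_cast hZ
  have hZpos : (0 : ℝ) < Z := by linarith
  set lZ : ℝ := log (Z : ℝ) with hlZ
  have hlZ0 : 0 ≤ lZ := Real.log_nonneg hZr
  have hZexp : Real.exp lZ = Z := Real.exp_log hZpos
  have hmexp : Real.exp lm = m := Real.exp_log hmpos
  have hsexp : Real.exp (lm * (1 - α)) = s' := by
    rw [hs', Real.rpow_def_of_pos hmpos]
  have hZpow : ∀ t : ℝ, (Z : ℝ) ^ t = Real.exp (lZ * t) := fun t => Real.rpow_def_of_pos hZpos t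
  set K : ℕ := ⌊w * lZ / lm⌋₊ with hK
  have hquot0 : 0 ≤ w * lZ / lm := by positivity
  have hKle : (K : ℝ) ≤ w * lZ / lm := Nat.floor_le hquot0
  have hKlt : w * lZ / lm < K + 1 := Nat.lt_floor_add_one _
  have hKle' : (K : ℝ) * lm ≤ w * lZ := by
    rw [le_div_iff₀ hlmpos] at hKle; exact hKle
  have hKlt' : w * lZ < (K + 1) * lm := by
    rw [div_lt_iff₀ hlmpos] at hKlt; exact hKlt
  have hZ45 : 0 < (Z : ℝ) ^ (4 * w) := Real.rpow_pos_of_pos hZpos _
  have hZs : (Z : ℝ) / s' ^ K ≤ s' * (Z : ℝ) ^ (4 * w) := by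
    rw [div_le_iff₀ (by positivity), hZpow]
    have e1 : s' * Real.exp (lZ * (4 * w)) * s' ^ K
        = Real.exp ((K + 1) * (lm * (1 - α)) + lZ * (4 * w)) := by
      rw [Real.exp_add, add_mul, one_mul, Real.exp_add, hsexp, Real.exp_nat_mul, hsexp]
      ring
    rw [e1, ← hZexp]
    apply Real.exp_le_exp.2
    have e2 : w * lZ * (1 - α) ≤ (K + 1) * lm * (1 - α) :=
      mul_le_mul_of_nonneg_right hKlt'.le (by linarith)
    have e3 : lZ = w * lZ * (1 - α) + lZ * (4 * w) := by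
      linear_combination (-lZ) * hw1
    linarith
  have hs'm : s' ≤ m := by
    rw [← hss]; nlinarith
  have hm4K : ((m : ℝ) ^ 4) ^ K ≤ (Z : ℝ) ^ (4 * w) := by
    rw [← pow_mul, hZpow, ← hmexp, ← Real.exp_nat_mul]
    apply Real.exp_le_exp.2
    push_cast; linarith
  have hsplit : (Z : ℝ) ^ (4 / (5 - α) + ε') = (Z : ℝ) ^ (4 * w) * (Z : ℝ) ^ ε' := by
    rw [hw4]; exact Real.rpow_add hZpos _ _
  have hZe : 1 ≤ (Z : ℝ) ^ ε' := Real.one_le_rpow hZr hε'.le
  rcases Nat.eq_zero_or_pos K with hK0 | hKpos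
  · rw [hK0, pow_zero, div_one] at hZs
    have hcount_le : (((range Z).filter (fun n : ℕ => ε * P.card ≤
        |∑ p ∈ P, χ p (n₀ + n)|)).card : ℝ) ≤ Z := by
      have := Finset.card_filter_le (range Z) (fun n : ℕ => ε * P.card ≤
        |∑ p ∈ P, χ p (n₀ + n)|)
      rw [Finset.card_range] at this
      exact_mod_cast this
    rw [hsplit]
    calc _ ≤ (Z : ℝ) := hcount_le
      _ ≤ s' * (Z : ℝ) ^ (4 * w) := hZs
      _ ≤ m * (Z : ℝ) ^ (4 * w) := mul_le_mul_of_nonneg_right hs'm hZ45.le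
      _ = 1 * (m * (Z : ℝ) ^ (4 * w)) * 1 := by ring
      _ ≤ 2 * (m * (Z : ℝ) ^ (4 * w)) * (Z : ℝ) ^ ε' := by
          apply mul_le_mul _ hZe (by norm_num) (by positivity)
          apply mul_le_mul_of_nonneg_right _ (by positivity)
          norm_num
      _ = _ := by ring
  · have hKr : (1 : ℝ) ≤ K := by exact_mod_cast hKpos
    have hk0 : 0 < q * K := Nat.mul_pos hq0 hKpos
    have hKs : (K : ℝ) * lm ≤ w * s := by
      refine hKle'.trans ?_
      exact mul_le_mul_of_nonneg_left hZm hwpos.le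
    have hqK : (q : ℝ) * K ≤ q * w * s / lm := by
      rw [le_div_iff₀ hlmpos]
      calc (q : ℝ) * K * lm = q * (K * lm) := by ring
        _ ≤ q * (w * s) := mul_le_mul_of_nonneg_left hKs hq0r.le
        _ = q * w * s := by ring
    have hslm : s * lm ≤ (s + 1) * lm := by nlinarith
    have hsqrt := log_le_two_sqrt hmpos
    rw [← hlm] at hsqrt
    have hbig : 4 / 3 * ((q : ℝ) * K) + 72 / ε ≤ 3 * ε / 8 * P.card := by
      have e1 : 4 / 3 * ((q : ℝ) * K) ≤ 3 * ε / 16 * (m / lm ^ 2) := by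
        have e2 : 4 / 3 * ((q : ℝ) * K) ≤ 4 / 3 * (q * w * s / lm) :=
          mul_le_mul_of_nonneg_left hqK (by norm_num)
        have e3 : 4 / 3 * (q * w * s / lm) = (4 / 3 * (q * w) * (s * lm)) / lm ^ 2 := by
          field_simp
        have e4 : 3 * ε / 16 * (m / lm ^ 2) = (3 * ε / 16 * m) / lm ^ 2 := by ring
        rw [e3] at e2
        rw [e4]
        refine e2.trans ?_
        apply div_le_div_of_nonneg_right _ (by positivity)
        have e5 : 4 / 3 * (q * w) * (s * lm) ≤ 4 / 3 * (q * w) * ((s + 1) * lm) :=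
          mul_le_mul_of_nonneg_left hslm (by positivity)
        have e6 : 4 / 3 * (q * w) * ((s + 1) * lm)
            = 3 * ε / 16 * (64 / (9 * ε) * (q * w) * ((s + 1) * lm)) := by
          field_simp
          norm_num
        rw [e6] at e5
        exact e5.trans (mul_le_mul_of_nonneg_left h1 (by positivity))
      have e2 : 72 / ε ≤ 3 * ε / 16 * (m / lm ^ 2) := by
        have e4 : 3 * ε / 16 * (m / lm ^ 2) = (3 * ε / 16 * m) / lm ^ 2 := by ring
        rw [e4, le_div_iff₀ (by positivity)]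
        have e5 : lm ^ 2 ≤ 2 * ((√(m : ℝ) + 1) * lm) := by
          calc lm ^ 2 = lm * lm := sq lm
            _ ≤ (2 * (√(m : ℝ) + 1)) * lm := mul_le_mul_of_nonneg_right hsqrt hlmpos.le
            _ = _ := by ring
        calc 72 / ε * lm ^ 2 ≤ 72 / ε * (2 * ((√(m : ℝ) + 1) * lm)) :=
              mul_le_mul_of_nonneg_left e5 (by positivity)
          _ = 3 * ε / 16 * (768 / ε ^ 2 * ((√(m : ℝ) + 1) * lm)) := by
              field_simp
              norm_num
          _ ≤ _ := mul_le_mul_of_nonneg_left h2 (by positivity)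
      have e3 : 3 * ε / 8 * (m / lm ^ 2) ≤ 3 * ε / 8 * P.card :=
        mul_le_mul_of_nonneg_left hPcard (by positivity)
      have e4 : 3 * ε / 8 * (m / lm ^ 2) = 3 * ε / 16 * (m / lm ^ 2) + 3 * ε / 16 * (m / lm ^ 2) := by
        ring
      linarith
    have h2k : 2 * ((q : ℝ) * K) ≤ P.card := by
      refine le_trans ?_ hPcard
      rw [le_div_iff₀ (by positivity)]
      calc 2 * ((q : ℝ) * K) * lm ^ 2 ≤ 2 * (q * w * s / lm) * lm ^ 2 := by
            apply mul_le_mul_of_nonneg_right _ (by positivity)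
            linarith
        _ = 2 * (q * w) * (s * lm) := by field_simp
        _ ≤ 2 * (q * w) * ((s + 1) * lm) := mul_le_mul_of_nonneg_left hslm (by positivity)
        _ ≤ m := h6
    set bb : ℕ := P.card / (q * K) with hbb
    have h2k' : 2 * (q * K) ≤ P.card := by exact_mod_cast h2k
    have hbb0 : 0 < bb := by
      rw [hbb]; exact Nat.div_pos (by omega) hk0
    have hkb : q * K * bb ≤ P.card := Nat.mul_div_le _ _
    have hkb2 : P.card ≤ q * K * bb + q * K := by
      have := Nat.div_add_mod P.card (q * K)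
      have h' := Nat.mod_lt P.card hk0
      rw [hbb]; omega
    have hmain := P_count (P := P) (m := m) χ g hprime h3' hgt hlt hg hgle hχg
      hε hqr hbb0 hkb hkb2 hbig n₀ Z
    refine hmain.trans ?_
    have hbbr : s' / (A3 * lm) ≤ bb := by
      have hx1 : (P.card : ℝ) ≤ q * K * bb + q * K := by exact_mod_cast hkb2
      have hbb1 : (1 : ℝ) ≤ bb := by exact_mod_cast hbb0
      have hx2 : (P.card : ℝ) ≤ 2 * ((q : ℝ) * K) * bb := by
        have : (q : ℝ) * K * 1 ≤ q * K * bb :=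
          mul_le_mul_of_nonneg_left hbb1 (by positivity)
        linarith
      have hx3 : (m : ℝ) / lm ^ 2 ≤ 2 * (q * w * s / lm) * bb := by
        refine hPcard.trans (hx2.trans ?_)
        apply mul_le_mul_of_nonneg_right _ (Nat.cast_nonneg _)
        linarith
      rw [div_le_iff₀ (by positivity)] at hx3
      have hx4 : 2 * (q * w * s / lm) * bb * lm ^ 2 = s * (2 * q * w * bb * lm) := by
        field_simp
      rw [hx4, ← hss] at hx3
      have hx5 := le_of_mul_le_mul_left hx3 (by linarith)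
      rw [div_le_iff₀ (by positivity)]
      calc s' ≤ 2 * q * w * bb * lm := hx5
        _ = (2 * q * w) * (bb * lm) := by ring
        _ ≤ A3 * (bb * lm) := mul_le_mul_of_nonneg_right hA32 (by positivity)
        _ = bb * (A3 * lm) := by ring
    have hA3lm : 1 ≤ A3 * lm := one_le_mul_of_one_le_of_one_le hA31 h3
    have hbbK : (Z : ℝ) / (bb : ℝ) ^ K ≤ (A3 * lm) ^ K * (s' * (Z : ℝ) ^ (4 * w)) := by
      have hx1 : (s' / (A3 * lm)) ^ K ≤ (bb : ℝ) ^ K := pow_le_pow_left₀ (by positivity) hbbr K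
      calc (Z : ℝ) / (bb : ℝ) ^ K ≤ Z / (s' / (A3 * lm)) ^ K := by
            apply div_le_div_of_nonneg_left hZpos.le (by positivity) hx1
        _ = (A3 * lm) ^ K * (Z / s' ^ K) := by
            rw [div_pow]; field_simp
        _ ≤ _ := mul_le_mul_of_nonneg_left hZs (by positivity)
    have hA3K : 1 ≤ (A3 * lm) ^ K := one_le_pow₀ hA3lm
    have hm4K2 : ((m : ℝ) ^ 4) ^ K ≤ (A3 * lm) ^ K * (s' * (Z : ℝ) ^ (4 * w)) := by
      calc ((m : ℝ) ^ 4) ^ K ≤ (Z : ℝ) ^ (4 * w) := hm4K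
        _ = 1 * (1 * (Z : ℝ) ^ (4 * w)) := by ring
        _ ≤ _ := by
          apply mul_le_mul hA3K _ (by positivity) (by positivity)
          exact mul_le_mul_of_nonneg_right hs'1 hZ45.le
    have hAAK : (A * (A3 * lm)) ^ K ≤ (Z : ℝ) ^ ε' := by
      have hpos : 0 < A * (A3 * lm) := by positivity
      rw [hZpow, ← Real.exp_log (pow_pos hpos K), Real.log_pow]
      apply Real.exp_le_exp.2
      have e0 : log (A * (A3 * lm)) = log (A * A3) + log lm := by
        rw [← mul_assoc, Real.log_mul (by positivity) hlmpos.ne']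
      have e1 : w * log (A * A3) ≤ lm * (ε' / 2) := by
        have := mul_le_mul_of_nonneg_left h4 (show 0 ≤ ε' / 2 by positivity)
        have e2 : ε' / 2 * (2 * w / ε' * log (A * A3)) = w * log (A * A3) := by
          field_simp
        linarith
      have e2 : w * log lm ≤ lm * (ε' / 2) := by
        have e3 : log lm ≤ 2 * √lm := by
          have e4 : log lm = 2 * log (√lm) := by
            rw [Real.log_sqrt hlmpos.le]; ring
          rw [e4]
          have := Real.log_le_sub_one_of_pos (Real.sqrt_pos.2 hlmpos)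
          linarith
        have e5 : 4 * w / ε' ≤ √lm := by
          apply Real.le_sqrt_of_sq_le h5
        have e6 : √lm * √lm = lm := Real.mul_self_sqrt hlmpos.le
        have e7 : 2 * w * √lm ≤ lm * (ε' / 2) := by
          have e8 := mul_le_mul_of_nonneg_right e5 (show 0 ≤ √lm * (ε' / 2) by positivity)
          have e9 : 4 * w / ε' * (√lm * (ε' / 2)) = 2 * w * √lm := by
            field_simp
            norm_num
          have e10 : √lm * (√lm * (ε' / 2)) = lm * (ε' / 2) := by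
            rw [← mul_assoc, e6]
          linarith
        have e11 : w * log lm ≤ w * (2 * √lm) := mul_le_mul_of_nonneg_left e3 hwpos.le
        linarith
      have hlog0 : 0 ≤ log (A * (A3 * lm)) :=
        Real.log_nonneg (one_le_mul_of_one_le_of_one_le hA1 hA3lm)
      calc (K : ℝ) * log (A * (A3 * lm)) ≤ (w * lZ / lm) * log (A * (A3 * lm)) :=
            mul_le_mul_of_nonneg_right hKle hlog0
        _ = (w * log (A * A3) + w * log lm) * (lZ / lm) := by rw [e0]; ring
        _ ≤ (lm * ε') * (lZ / lm) := by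
            apply mul_le_mul_of_nonneg_right _ (by positivity)
            linarith
        _ = lZ * ε' := by field_simp
    calc (2 ^ q * (16 / (3 * ε)) ^ 2) ^ K * (Z / (bb : ℝ) ^ K + ((m : ℝ) ^ 4) ^ K)
        ≤ A ^ K * ((A3 * lm) ^ K * (s' * (Z : ℝ) ^ (4 * w)) +
            (A3 * lm) ^ K * (s' * (Z : ℝ) ^ (4 * w))) := by
          apply mul_le_mul (pow_le_pow_left₀ (by positivity) hA2 K) _ (by positivity)
            (by positivity)
          linarith
      _ = 2 * (s' * (Z : ℝ) ^ (4 * w)) * (A * (A3 * lm)) ^ K := by rw [mul_pow]; ring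
      _ ≤ 2 * (m * (Z : ℝ) ^ (4 * w)) * (Z : ℝ) ^ ε' := by
          apply mul_le_mul _ hAAK (by positivity) (by positivity)
          apply mul_le_mul_of_nonneg_left _ (by norm_num)
          exact mul_le_mul_of_nonneg_right hs'm hZ45.le
      _ = 2 * m * (Z : ℝ) ^ (4 / (5 - α) + ε') := by rw [hsplit]; ring

end MPaaa0dfExp
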