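import Pool.Agent.W_MP_aaa0df_nt.CharSum

set_option autoImplicit false

namespace MPaaa0dfExp

open Finset

/-- modulo the prime `p` the sequence is `A n * n ^ 2 + B n * n + C n` with `A, B, C` of period
`p - 1` and discriminant never `0` -/
structure QType (D : ℕ → ℤ) (p : ℕ) : Prop where
  prime : p.Prime
  ex : ∃ A B C : ℕ → ZMod p, (∀ n, A (n + (p - 1)) = A n) ∧ (∀ n, B (n + (p - 1)) = B n) ∧
    (∀ n, C (n + (p - 1)) = C n) ∧
    (∀ n, B n ^ 2 - 4 * A n * C n ≠ 0) ∧ ∀ n, (D n : ZMod p) = A n * n ^ 2 + B n * n + C n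

/-- `g` has period `p (p - 1)` and mean zero over all progressions of length `p` with difference
divisible by `p - 1` and coprime to `p` -/
structure MZ (p : ℕ) (g : ℕ → ℝ) : Prop where
  per : ∀ n, g (n + p * (p - 1)) = g n
  sum : ∀ Q, (p - 1) ∣ Q → Nat.Coprime p Q → ∀ m, ∑ j ∈ range p, g (m + Q * j) = 0

lemma per_mul {α : Type*} {f : ℕ → α} {k : ℕ} (h : ∀ n, f (n + k) = f n) (t n : ℕ) :
    f (n + k * t) = f n := by
  induction t with
  | zero => simp
  | succ t ih => rw [Nat.mul_succ, ← add_assoc, h, ih]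

lemma MZ.periodic {p : ℕ} {g : ℕ → ℝ} (h : MZ p g) {Q : ℕ} (hQ : p * (p - 1) ∣ Q) (n : ℕ) :
    g (n + Q) = g n := by
  obtain ⟨t, rfl⟩ := hQ
  exact per_mul h.per t n

lemma sum_range_eq_sum_zmod (p : ℕ) [NeZero p] (F : ZMod p → ℝ) :
    ∑ j ∈ range p, F (j : ZMod p) = ∑ x, F x := by
  refine Finset.sum_bij' (fun j _ => (j : ZMod p)) (fun x _ => x.val) ?_ ?_ ?_ ?_ ?_
  · intro j _; exact Finset.mem_univ _
  · intro x _; exact Finset.mem_range.2 (ZMod.val_lt x)
  · intro j hj; exact ZMod.val_cast_of_lt (Finset.mem_range.1 hj)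
  · intro x _; exact ZMod.natCast_zmod_val x
  · intro j _; rfl

lemma sum_range_mul (F : ℕ → ℝ) (Q p : ℕ) :
    ∑ n ∈ range (Q * p), F n = ∑ r ∈ range Q, ∑ j ∈ range p, F (r + Q * j) := by
  rw [Finset.sum_comm]
  induction p with
  | zero => simp
  | succ p ih =>
    rw [Nat.mul_succ, Finset.sum_range_add, ih, Finset.sum_range_succ]
    congr 1
    apply Finset.sum_congr rfl
    intro r _
    rw [add_comm]

lemma sum_full {p : ℕ} {g h : ℕ → ℝ} (hg : MZ p g) {Q : ℕ} (hQ1 : (p - 1) ∣ Q)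
    (hQ : Nat.Coprime p Q) (hper : ∀ n, h (n + Q) = h n) (m : ℕ) :
    ∑ n ∈ range (Q * p), g (m + n) * h (m + n) = 0 := by
  rw [sum_range_mul (fun n => g (m + n) * h (m + n))]
  apply Finset.sum_eq_zero
  intro r _
  have h1 : ∀ j ∈ range p, g (m + (r + Q * j)) * h (m + (r + Q * j))
      = h (m + r) * g ((m + r) + Q * j) := by
    intro j _
    rw [← add_assoc, per_mul hper, mul_comm]
  rw [Finset.sum_congr rfl h1, ← Finset.mul_sum, hg.sum Q hQ1 hQ, mul_zero]

/-- incomplete sums of `g h` -/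
lemma abs_sum_le {p : ℕ} {g h : ℕ → ℝ} (hp0 : 0 < p) (hg : MZ p g) {Q : ℕ} (hQ0 : 0 < Q)
    (hQ1 : (p - 1) ∣ Q) (hQ : Nat.Coprime p Q) (hper : ∀ n, h (n + Q) = h n) (M : ℝ)
    (hM : ∀ n, |g n * h n| ≤ M) (Z : ℕ) : ∀ m : ℕ,
    |∑ n ∈ range Z, g (m + n) * h (m + n)| ≤ M * (Q * p : ℕ) := by
  have hM0 : 0 ≤ M := (abs_nonneg _).trans (hM 0)
  induction Z using Nat.strong_induction_on with
  | _ Z ih =>
    intro m
    by_cases hZ : Z ≤ Q * p
    · calc |∑ n ∈ range Z, g (m + n) * h (m + n)|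
          ≤ ∑ n ∈ range Z, |g (m + n) * h (m + n)| := Finset.abs_sum_le_sum_abs _ _
        _ ≤ ∑ _n ∈ range Z, M := Finset.sum_le_sum (fun n _ => hM _)
        _ = M * (Z : ℕ) := by rw [Finset.sum_const, card_range, nsmul_eq_mul, mul_comm]
        _ ≤ M * (Q * p : ℕ) := by
          apply mul_le_mul_of_nonneg_left _ hM0
          exact_mod_cast hZ
    · push Not at hZ
      have hpos : 0 < Q * p := Nat.mul_pos hQ0 hp0
      have hZ' : Z = Q * p + (Z - Q * p) := by omega
      rw [hZ', Finset.sum_range_add, sum_full hg hQ1 hQ hper, zero_add]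
      have := ih (Z - Q * p) (by omega) (m + (Q * p : ℕ))
      refine le_trans (le_of_eq ?_) this
      congr 1
      apply Finset.sum_congr rfl
      intro n _
      rw [add_assoc]

open Classical in
/-- `1` at the nonzero squares, `-1` at the non-squares, `t` at `0` -/
noncomputable def sg (t : ℝ) (p : ℕ) (x : ZMod p) : ℝ :=
  if x = 0 then t else if IsSquare x then 1 else -1

lemma abs_sg {t : ℝ} (ht : |t| ≤ 1) (p : ℕ) (x : ZMod p) : |sg t p x| ≤ 1 := by
  unfold sg; split_ifs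
  · exact ht
  · norm_num
  · norm_num

lemma sg_eq (t : ℝ) {p : ℕ} [Fact p.Prime] (x : ZMod p) :
    sg t p x = ((quadraticChar (ZMod p) x : ℤ) : ℝ) + if x = 0 then t else 0 := by
  classical
  unfold sg
  rw [quadraticChar_apply, quadraticCharFun]
  by_cases hx : x = 0
  · simp [hx]
  · by_cases hs : IsSquare x
    · simp [hx, hs]
    · simp [hx, hs]

/-- the number of zeros of a quadratic polynomial of nonzero discriminant -/
lemma card_zeros {p : ℕ} [Fact p.Prime] (a b c : ZMod p)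
    (hD : b ^ 2 - 4 * a * c ≠ 0) :
    ((univ : Finset (ZMod p)).filter (fun x => a * x ^ 2 + b * x + c = 0)).card ≤ 2 := by
  classical
  by_contra hcon
  push Not at hcon
  rw [Finset.two_lt_card] at hcon
  obtain ⟨x1, h1, x2, h2, x3, h3, h12, h13, h23⟩ := hcon
  rw [Finset.mem_filter] at h1 h2 h3
  have e1 := h1.2
  have e2 := h2.2
  have e3 := h3.2
  have k12 : (x1 - x2) * (a * (x1 + x2) + b) = 0 := by linear_combination e1 - e2
  have k13 : (x1 - x3) * (a * (x1 + x3) + b) = 0 := by linear_combination e1 - e3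
  have j12 := (mul_eq_zero.1 k12).resolve_left (sub_ne_zero.2 h12)
  have j13 := (mul_eq_zero.1 k13).resolve_left (sub_ne_zero.2 h13)
  have ja : a * (x2 - x3) = 0 := by linear_combination j12 - j13
  have ha := (mul_eq_zero.1 ja).resolve_right (sub_ne_zero.2 h23)
  rw [ha] at j12
  have hb : b = 0 := by linear_combination j12
  apply hD
  rw [ha, hb]; ring

lemma sum_sg {t : ℝ} (ht : |t| ≤ 1) {p : ℕ} [hpF : Fact p.Prime] (hp2 : p ≠ 2) (a b c : ZMod p)
    (hD : b ^ 2 - 4 * a * c ≠ 0) :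
    |∑ x : ZMod p, sg t p (a * x ^ 2 + b * x + c)| ≤ 3 := by
  classical
  simp_rw [sg_eq]
  rw [Finset.sum_add_distrib, ← Int.cast_sum, MPaaa0df.sum_quadChar_poly hp2 a b c hD]
  have h1 : |(((- quadraticChar (ZMod p) a : ℤ)) : ℝ)| ≤ 1 := by
    rcases eq_or_ne a 0 with h | h
    · rw [h]; simp
    · rcases quadraticChar_dichotomy h with h' | h' <;> rw [h'] <;> simp
  have h2 : |∑ x : ZMod p, (if a * x ^ 2 + b * x + c = 0 then t else 0)| ≤ 2 := by
    rw [← Finset.sum_filter, Finset.sum_const, nsmul_eq_mul, abs_mul, Nat.abs_cast]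
    have := card_zeros a b c hD
    have h3 : (((univ : Finset (ZMod p)).filter (fun x => a * x ^ 2 + b * x + c = 0)).card : ℝ) ≤ 2 := by
      exact_mod_cast this
    have := abs_nonneg t
    nlinarith
  have := abs_add_le (((- quadraticChar (ZMod p) a : ℤ)) : ℝ)
    (∑ x : ZMod p, (if a * x ^ 2 + b * x + c = 0 then t else 0))
  linarith

/-- the centred functions -/
lemma QType.exists_gg {D : ℕ → ℤ} {p : ℕ} (h : QType D p) (hp9 : 9 ≤ p) {t : ℝ} (ht : |t| ≤ 1) :
    ∃ g : ℕ → ℝ, MZ p g ∧ (∀ n, |g n| ≤ 4 / 3) ∧ ∀ n, |sg t p (D n) - g n| ≤ 3 / p := by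
  classical
  have hpF : Fact p.Prime := ⟨h.prime⟩
  have hp2 : p ≠ 2 := by omega
  have hpr : (9 : ℝ) ≤ p := by exact_mod_cast hp9
  have hp0 : (p : ℝ) ≠ 0 := by linarith
  obtain ⟨A, B, C, hA, hB, hC, hΔ, hD⟩ := h.ex
  set c : ℕ → ℝ := fun n => (∑ x : ZMod p, sg t p (A n * x ^ 2 + B n * x + C n)) / p with hc
  have hcper : ∀ n, c (n + (p - 1)) = c n := by
    intro n
    rw [hc]
    simp only
    rw [hA, hB, hC]
  have hcle : ∀ n, |c n| ≤ 3 / p := by
    intro n
    rw [hc]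
    simp only
    rw [abs_div, Nat.abs_cast]
    exact div_le_div_of_nonneg_right (sum_sg ht hp2 _ _ _ (hΔ n)) (Nat.cast_nonneg _)
  have h3p : (3 : ℝ) / p ≤ 1 / 3 := by
    rw [div_le_div_iff₀ (by linarith) (by norm_num)]; linarith
  refine ⟨fun n => sg t p (D n) - c n, ⟨?_, ?_⟩, ?_, ?_⟩
  · intro n
    have e1 : c (n + p * (p - 1)) = c n := by
      rw [mul_comm]; exact per_mul hcper p n
    have e2 : (D (n + p * (p - 1)) : ZMod p) = D n := by
      rw [hD, hD, mul_comm p (p - 1), per_mul hA, per_mul hB, per_mul hC]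
      push_cast
      simp
    rw [e1, e2]
  · intro Q hQ1 hQ m
    obtain ⟨s, rfl⟩ := hQ1
    have e1 : ∀ j : ℕ, c (m + (p - 1) * s * j) = c m := by
      intro j
      rw [mul_assoc]; exact per_mul hcper _ _
    have hu : ((((p - 1) * s : ℕ)) : ZMod p) ≠ 0 := by
      intro h0
      rw [ZMod.natCast_eq_zero_iff] at h0
      have := Nat.Coprime.eq_one_of_dvd hQ h0
      exact h.prime.one_lt.ne' this
    have e2 : ∀ j : ℕ, sg t p (D (m + (p - 1) * s * j))
        = (fun x : ZMod p => sg t p (A m * ((m : ZMod p) + (((p - 1) * s : ℕ) : ZMod p) * x) ^ 2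
          + B m * ((m : ZMod p) + (((p - 1) * s : ℕ) : ZMod p) * x) + C m)) (j : ZMod p) := by
      intro j
      simp only
      congr 1
      rw [hD, mul_assoc, per_mul hA, per_mul hB, per_mul hC]
      push_cast
      ring
    rw [Finset.sum_sub_distrib, Finset.sum_congr rfl (fun j _ => e2 j),
      Finset.sum_congr rfl (fun j _ => e1 j)]
    have e3 := sum_range_eq_sum_zmod p (fun x : ZMod p =>
      sg t p (A m * ((m : ZMod p) + (((p - 1) * s : ℕ) : ZMod p) * x) ^ 2
          + B m * ((m : ZMod p) + (((p - 1) * s : ℕ) : ZMod p) * x) + C m))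
    rw [e3, Finset.sum_const, card_range, nsmul_eq_mul]
    have e4 : ∑ x : ZMod p, sg t p (A m * ((m : ZMod p) + (((p - 1) * s : ℕ) : ZMod p) * x) ^ 2
          + B m * ((m : ZMod p) + (((p - 1) * s : ℕ) : ZMod p) * x) + C m)
        = ∑ x : ZMod p, sg t p (A m * x ^ 2 + B m * x + C m) := by
      refine Fintype.sum_bijective (fun x : ZMod p => (m : ZMod p) +
        (((p - 1) * s : ℕ) : ZMod p) * x) ?_ _ _ (fun x => rfl)
      exact (Equiv.addLeft (m : ZMod p)).bijective.comp (mulLeft_bijective₀ _ hu)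
    rw [e4, hc]
    simp only
    field_simp
    ring
  · intro n
    have := abs_sub (sg t p (D n)) (c n)
    have h1 := abs_sg ht p (D n : ZMod p)
    have h2 := hcle n
    linarith
  · intro n
    have : sg t p (D n) - (sg t p (D n) - c n) = c n := by ring
    rw [this]
    exact hcle n

end MPaaa0dfExp
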