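import Pool.Agent.W_aaa0df_h13.Rel
import Pool.Agent.W_MP_aaa0df_nt.Defs

set_option autoImplicit false

namespace MPaaa0dfExp

open Finset Real MPaaa0df

/-- `E (n + p - 1) ≡ E n (mod p)` for all primes `p > p0` and `n ≥ 1` -/
def IsPer (p0 : ℕ) (E : ℕ → ℤ) : Prop :=
  ∀ p : ℕ, p.Prime → p0 < p → ∀ n : ℕ, 1 ≤ n → (p : ℤ) ∣ E (n + (p - 1)) - E n

lemma qType {p0 : ℕ} {A B C : ℕ → ℤ} (hA : IsPer p0 A) (hB : IsPer p0 B) (hC : IsPer p0 C)
    (hΔ : ∀ p : ℕ, p.Prime → p0 < p → ∀ n : ℕ, 1 ≤ n → ¬ (p : ℤ) ∣ B n ^ 2 - 4 * A n * C n)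
    {p : ℕ} (hp : p.Prime) (hpp : p0 < p) :
    QType (fun n => A (n + 1) * ((n + 1 : ℕ) : ℤ) ^ 2 + B (n + 1) * ((n + 1 : ℕ) : ℤ)
      + C (n + 1)) p := by
  have key : ∀ E : ℕ → ℤ, IsPer p0 E → ∀ n : ℕ,
      (E (n + (p - 1) + 1) : ZMod p) = E (n + 1) := by
    intro E hE n
    have h := (ZMod.intCast_zmod_eq_zero_iff_dvd _ p).2 (hE p hp hpp (n + 1) (by omega))
    push_cast at h
    have e : n + (p - 1) + 1 = n + 1 + (p - 1) := by omega
    rw [e]
    exact sub_eq_zero.1 h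
  refine ⟨hp, fun n => (A (n + 1) : ZMod p), fun n => 2 * (A (n + 1) : ZMod p) + (B (n + 1) : ZMod p),
    fun n => (A (n + 1) : ZMod p) + (B (n + 1) : ZMod p) + (C (n + 1) : ZMod p),
    ?_, ?_, ?_, ?_, ?_⟩
  · intro n; exact key A hA n
  · intro n; simp only; rw [key A hA n, key B hB n]
  · intro n; simp only; rw [key A hA n, key B hB n, key C hC n]
  · intro n h
    apply hΔ p hp hpp (n + 1) (by omega)
    apply (ZMod.intCast_zmod_eq_zero_iff_dvd _ p).1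
    push_cast
    linear_combination h
  · intro n
    push_cast
    ring

lemma splitCount_mono (d : ℤ) {y z : ℝ} (h : y ≤ z) : splitCount d y ≤ splitCount d z := by
  unfold splitCount
  apply Set.ncard_le_ncard
  · rintro p ⟨h1, h2, h3⟩
    exact ⟨h1, h2.trans_le h, h3⟩
  · apply Set.Finite.subset (Set.finite_Iio ⌈z⌉₊)
    rintro p ⟨_, h2, _⟩
    exact Nat.lt_ceil.2 h2

lemma block_bound2 {δ ε' α α' γ : ℝ} (hδ : 0 < δ) (hε' : 0 < ε') (hγ0 : 0 < γ) (hγ1 : γ < 1)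
    (hα'0 : 0 < α') (hα'1 : α' < 1) (hα : α < γ * α') :
    ∃ C : ℝ, 0 < C ∧ ∃ m0 : ℕ, ∀ m : ℕ, m0 ≤ m → ∀ Z : ℕ, 1 ≤ Z →
      log (Z : ℝ) ≤ 2 * (m : ℝ) ^ α →
      ∀ (D : ℕ → ℤ) (R : ℕ), 8 ≤ R → (∀ p : ℕ, p.Prime → R < p → QType D p) →
      ∃ E : Finset ℕ, (E.card : ℝ) ≤ C * m * (Z : ℝ) ^ (4 / (5 - α') + ε') ∧
        ∀ n ∈ range Z, n ∉ E → ∀ t : ℝ, (t = -1 ∨ t = 1) →
          |∑ p ∈ PR R m, sg t p (D n)| ≤ δ * m.primesBelow.card := by
  obtain ⟨C1, hC1, m0, h1⟩ := block_bound hδ hε' hγ0 hγ1 hα'0 hα'1 hα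
  refine ⟨2 * C1, by positivity, m0, ?_⟩
  intro m hm Z hZ hZm D R hR hQ
  obtain ⟨E1, hE1, hE1'⟩ := h1 m hm Z hZ hZm D R hR hQ (fun _ => 1) (fun _ => -1)
    (fun _ => by norm_num) (fun _ => by norm_num)
  obtain ⟨E2, hE2, hE2'⟩ := h1 m hm Z hZ hZm D R hR hQ (fun _ => 1) (fun _ => 1)
    (fun _ => by norm_num) (fun _ => by norm_num)
  simp only [one_mul] at hE1' hE2'
  refine ⟨E1 ∪ E2, ?_, ?_⟩
  · have e1 : ((E1 ∪ E2).card : ℝ) ≤ E1.card + E2.card := by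
      exact_mod_cast Finset.card_union_le _ _
    linarith
  · intro n hn hnE t ht
    rw [Finset.mem_union] at hnE
    push Not at hnE
    rcases ht with h | h
    · rw [h]; exact hE1' n hn hnE.1
    · rw [h]; exact hE2' n hn hnE.2

lemma sg_one_sq (p : ℕ) (x : ZMod p) : sg 1 p x * sg 1 p x = 1 := by
  unfold sg; split_ifs <;> norm_num

lemma sg_twist {p : ℕ} (hp : p.Prime) (d f : ℤ) :
    sg 1 p (d : ZMod p) * sg (sg 1 p (d : ZMod p)) p ((d * f ^ 2 : ℤ) : ZMod p) = 1 := by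
  classical
  have hpF : Fact p.Prime := ⟨hp⟩
  by_cases h0 : ((d * f ^ 2 : ℤ) : ZMod p) = 0
  · have e1 : sg (sg 1 p (d : ZMod p)) p ((d * f ^ 2 : ℤ) : ZMod p) = sg 1 p (d : ZMod p) := by
      conv_lhs => unfold sg
      rw [if_pos h0]
      rfl
    rw [e1, sg_one_sq]
  · have hd0 : (d : ZMod p) ≠ 0 := by
      intro h; apply h0; push_cast; rw [h]; ring
    have hf0 : (f : ZMod p) ≠ 0 := by
      intro h; apply h0; push_cast; rw [h]; ring
    have hsq : IsSquare ((d * f ^ 2 : ℤ) : ZMod p) ↔ IsSquare (d : ZMod p) := by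
      push_cast
      constructor
      · rintro ⟨y, hy⟩
        refine ⟨y / f, ?_⟩
        field_simp
        rw [hy]; ring
      · rintro ⟨y, hy⟩
        exact ⟨y * f, by rw [hy]; ring⟩
    unfold sg
    rw [if_neg h0, if_neg hd0]
    by_cases h : IsSquare (d : ZMod p)
    · rw [if_pos h, if_pos (hsq.2 h)]; norm_num
    · rw [if_neg h, if_neg (fun h' => h (hsq.1 h'))]; norm_num

lemma sum_twist (R m : ℕ) (d f : ℤ) :
    ∑ p ∈ PR R m, sg 1 p (d : ZMod p) * sg (sg 1 p (d : ZMod p)) p ((d * f ^ 2 : ℤ) : ZMod p)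
      = (PR R m).card := by
  have h : ∀ p ∈ PR R m, sg 1 p (d : ZMod p) *
      sg (sg 1 p (d : ZMod p)) p ((d * f ^ 2 : ℤ) : ZMod p) = 1 := by
    intro p hp
    rw [PR, Finset.mem_filter] at hp
    exact sg_twist (Nat.prime_of_mem_primesBelow hp.1) d f
  rw [Finset.sum_congr rfl h, Finset.sum_const, nsmul_eq_mul, mul_one]

lemma card_PR (R m : ℕ) : (m.primesBelow.card : ℝ) ≤ (PR R m).card + R := by
  have h1 := sdiff_card R m
  have hsub : PR R m ⊆ m.primesBelow := Finset.filter_subset _ _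
  have h2 := Finset.card_sdiff_add_card_eq_card hsub
  have : m.primesBelow.card ≤ (PR R m).card + R := by omega
  exact_mod_cast this

lemma threshold_ge {κ u : ℝ} (hκ : 0 < κ) (hu1 : 1 ≤ u)
    (hu : Real.exp (1 / (2 * κ)) / (2 * κ) ≤ u) {d : ℤ}
    (hd : Real.exp (2 * κ * u) < |(d : ℝ)|) : u ^ 2 ≤ threshold d := by
  have h1 : 2 * κ * u ≤ log |(d : ℝ)| := by
    have := Real.log_le_log (Real.exp_pos _) hd.le
    rwa [Real.log_exp] at this
  have h2 : Real.exp (1 / (2 * κ)) ≤ 2 * κ * u := by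
    rw [div_le_iff₀ (by positivity)] at hu; linarith
  have h3 : 1 / (2 * κ) ≤ log (log |(d : ℝ)|) := by
    rw [Real.le_log_iff_exp_le (lt_of_lt_of_le (Real.exp_pos _) (h2.trans h1))]
    exact h2.trans h1
  unfold threshold
  have h4 : (2 * κ * u) ^ 2 ≤ log |(d : ℝ)| ^ 2 := pow_le_pow_left₀ (by positivity) h1 2
  have h5 : (1 / (2 * κ)) ^ 2 ≤ log (log |(d : ℝ)|) ^ 2 := pow_le_pow_left₀ (by positivity) h3 2
  calc u ^ 2 = (2 * κ * u) ^ 2 * (1 / (2 * κ)) ^ 2 := by field_simp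
    _ ≤ _ := mul_le_mul h4 h5 (by positivity) (by positivity)

lemma sq_le_exp {κ u : ℝ} (hκ : 0 < κ) (hu1 : 1 ≤ u) (hu : 27 / κ ^ 3 ≤ u) :
    u ^ 2 ≤ Real.exp (κ * u) := by
  have h1 : κ * u / 3 ≤ Real.exp (κ * u / 3) := by
    have := Real.add_one_le_exp (κ * u / 3); linarith
  have h2 : Real.exp (κ * u) = Real.exp (κ * u / 3) ^ 3 := by
    rw [← Real.exp_nat_mul]; congr 1; push_cast; ring
  rw [h2]
  have h3 : (κ * u / 3) ^ 3 ≤ Real.exp (κ * u / 3) ^ 3 := pow_le_pow_left₀ (by positivity) h1 3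
  refine le_trans ?_ h3
  rw [div_le_iff₀ (by positivity)] at hu
  calc u ^ 2 = u ^ 2 * 27 / 27 := by ring
    _ ≤ u ^ 2 * (u * κ ^ 3) / 27 := by
        apply div_le_div_of_nonneg_right _ (by norm_num)
        exact mul_le_mul_of_nonneg_left hu (by positivity)
    _ = (κ * u / 3) ^ 3 := by ring

/-- the property that holds for almost all `n`: for every discriminant `d` with `D = d f²` -/
def Good (β κ δ : ℝ) (n : ℕ) (D : ℤ) : Prop :=
  ∀ d f : ℤ, D = d * f ^ 2 → (d % 4 = 0 ∨ d % 4 = 1) →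
    (∀ y : ℝ, (Real.log n) ^ β ≤ y → y ≤ (n : ℝ) ^ κ →
      |(splitCount d y : ℝ) - primeCount y / 2| ≤ δ * primeCount y) ∧
    (n : ℝ) ^ (2 * κ) < |(d : ℝ)| ∧
    (1 / 2 - δ) * primeCount (min (threshold d) ((n : ℝ) ^ κ)) ≤ N d

theorem main {p0 : ℕ} {A B C : ℕ → ℤ} (hA : IsPer p0 A) (hB : IsPer p0 B) (hC : IsPer p0 C)
    (hΔ : ∀ p : ℕ, p.Prime → p0 < p → ∀ n : ℕ, 1 ≤ n → ¬ (p : ℤ) ∣ B n ^ 2 - 4 * A n * C n)
    {β κ ε δ : ℝ} (hβ : 1 < β) (hβ2 : β ≤ 2) (hκ : 0 < κ) (hε : 0 < ε) (hδ : 0 < δ) :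
    ∃ K : ℝ, ∀ Z : ℕ, 1 ≤ Z →
      (Set.ncard {n : ℕ | 1 ≤ n ∧ n ≤ Z ∧ ¬ Good β κ δ n (A n * n ^ 2 + B n * n + C n)} : ℝ)
        ≤ K * (Z : ℝ) ^ (max (4 * β / (5 * β - 1)) (4 / 5 + 2 * κ) + ε) := by
  classical
  have hβ0 : 0 < β := by linarith
  set W : ℝ := max (4 * β / (5 * β - 1)) (4 / 5 + 2 * κ) + ε with hW
  have hW1 : 4 * β / (5 * β - 1) + ε ≤ W := by
    have := le_max_left (4 * β / (5 * β - 1)) (4 / 5 + 2 * κ); linarith
  have hW2 : 4 / 5 + 2 * κ + ε ≤ W := by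
    have := le_max_right (4 * β / (5 * β - 1)) (4 / 5 + 2 * κ); linarith
  clear_value W
  set R : ℕ := max p0 8 with hR
  have hR8 : 8 ≤ R := le_max_right _ _
  have hR2 : 2 ≤ R := by omega
  have hRp : p0 ≤ R := le_max_left _ _
  -- parameters for the lower range
  set α : ℝ := 1 / β with hα
  have hα0 : 0 < α := by positivity
  have hα1 : α < 1 := by rw [hα, div_lt_one hβ0]; exact hβ
  set α' : ℝ := α + min ε ((1 - α) / 2) with hα'
  have hmin0 : 0 < min ε ((1 - α) / 2) := lt_min hε (by linarith)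
  have hα'α : α < α' := by linarith
  have hα'0 : 0 < α' := by linarith
  have hα'1 : α' < 1 := by
    have := min_le_right ε ((1 - α) / 2); linarith
  have hα'ε : α' ≤ α + ε := by
    have := min_le_left ε ((1 - α) / 2); linarith
  set γ : ℝ := (α + α') / (2 * α') with hγ
  have hγ0 : 0 < γ := by positivity
  have hγ1 : γ < 1 := by rw [hγ, div_lt_one (by positivity)]; linarith
  have hαγ : α < γ * α' := by
    have : γ * α' = (α + α') / 2 := by rw [hγ]; field_simp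
    rw [this]; linarith
  have hexA : 4 / (5 - α') + ε / 4 + ε / 2 ≤ W := by
    have e1 : 4 * β / (5 * β - 1) = 4 / (5 - α) := by
      rw [hα]
      have : 5 * β - 1 ≠ 0 := by linarith
      field_simp
    have e2 : 4 / (5 - α') ≤ 4 / (5 - α) + ε / 4 := by
      have h5 : 0 < 5 - α' := by linarith
      have h5' : 0 < 5 - α := by linarith
      rw [div_add' _ _ _ h5'.ne', div_le_div_iff₀ h5 h5']
      have h6 : 4 * (α' - α) ≤ 4 * ε := by linarith
      have h7 : 16 ≤ (5 - α) * (5 - α') := by nlinarith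
      have h8 : ε * 16 ≤ ε * ((5 - α) * (5 - α')) := mul_le_mul_of_nonneg_left h7 hε.le
      nlinarith
    linarith
  obtain ⟨CA, hCA, mA, hAA⟩ := block_bound2 (δ := δ) (ε' := ε / 4) (α := α) (α' := α') (γ := γ)
    hδ (by positivity) hγ0 hγ1 hα'0 hα'1 hαγ
  -- parameters for the upper range
  set a : ℝ := min ε (1 / 2) with ha
  have ha0 : 0 < a := lt_min hε (by norm_num)
  have ha1 : a < 1 := lt_of_le_of_lt (min_le_right _ _) (by norm_num)
  have haε : a ≤ ε := min_le_left _ _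
  have hexB : 4 / (5 - a) + ε / 4 ≤ 4 / 5 + ε / 2 := by
    have h5 : 0 < 5 - a := by linarith
    have e2 : 4 / (5 - a) ≤ 4 / 5 + ε / 4 := by
      rw [div_le_iff₀ h5]
      nlinarith
    linarith
  obtain ⟨CB, hCB, mB, hBB⟩ := block_bound2 (δ := δ) (ε' := ε / 4) (α := a / 4) (α' := a)
    (γ := 1 / 2) hδ (by positivity) (by norm_num) (by norm_num) ha0 ha1 (by linarith)
  obtain ⟨CC, hCC, mC, hCC'⟩ := block_bound (δ := 1 / 2) (ε' := ε / 4) (α := a / 4) (α' := a)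
    (γ := 1 / 2) (by norm_num) (by positivity) (by norm_num) (by norm_num) ha0 ha1 (by linarith)
  obtain ⟨m2, h2⟩ := primes_lower
  obtain ⟨m3, h3⟩ := asym1 1
  obtain ⟨m4, h4⟩ := asym1 (2 * R / min δ (1 / 4))
  obtain ⟨m5, h5⟩ := asym2 1
  set m0 : ℕ := max (max (max mA mB) (max mC m2)) (max (max m3 m4) m5) with hm0
  have hmA : mA ≤ m0 := ((le_max_left mA mB).trans (le_max_left _ _)).trans (le_max_left _ _)
  have hmB : mB ≤ m0 := ((le_max_right mA mB).trans (le_max_left _ _)).trans (le_max_left _ _)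
  have hmC : mC ≤ m0 := ((le_max_left mC m2).trans (le_max_right _ _)).trans (le_max_left _ _)
  have hm2 : m2 ≤ m0 := ((le_max_right mC m2).trans (le_max_right _ _)).trans (le_max_left _ _)
  have hm3 : m3 ≤ m0 := ((le_max_left m3 m4).trans (le_max_left _ _)).trans (le_max_right _ _)
  have hm4 : m4 ≤ m0 := ((le_max_right m3 m4).trans (le_max_left _ _)).trans (le_max_right _ _)
  have hm5 : m5 ≤ m0 := (le_max_right (max m3 m4) m5).trans (le_max_right _ _)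
  clear_value m0
  have hδ' : 0 < min δ (1 / 4) := lt_min hδ (by norm_num)
  -- lower bounds for numbers of primes
  have hcardF : ∀ m : ℕ, m0 ≤ m → (R : ℝ) ≤ min δ (1 / 4) * m.primesBelow.card := by
    intro m hm
    have e2 := h2 m (hm2.trans hm)
    have e4 := h4 m (hm4.trans hm)
    have e5 := h5 m (hm5.trans hm)
    have hlm : 0 < log (m : ℝ) := by linarith
    have hs : (0 : ℝ) ≤ √(m : ℝ) := Real.sqrt_nonneg _
    have e9 : (R : ℝ) / min δ (1 / 4) ≤ m / (2 * log m) := by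
      rw [le_div_iff₀ (by positivity)]
      have e10 : 2 * (R : ℝ) / min δ (1 / 4) * (1 * log m)
          ≤ 2 * R / min δ (1 / 4) * ((√(m : ℝ) + 1) * log m) := by
        apply mul_le_mul_of_nonneg_left _ (by positivity)
        apply mul_le_mul_of_nonneg_right _ hlm.le
        linarith
      have e11 : (R : ℝ) / min δ (1 / 4) * (2 * log m) = 2 * R / min δ (1 / 4) * (1 * log m) := by
        ring
      linarith
    have e12 := e9.trans e2
    rw [div_le_iff₀ hδ'] at e12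
    linarith
  -- threshold for Z
  set Λ : ℝ := max (max (m0 : ℝ) 1)
    (max (Real.exp (1 / (2 * κ)) / (2 * κ)) (27 / κ ^ 3)) with hΛ
  have hΛm : (m0 : ℝ) ≤ Λ := (le_max_left _ _).trans (le_max_left _ _)
  have hΛ1 : 1 ≤ Λ := (le_max_right _ _).trans (le_max_left _ _)
  have hΛa : Real.exp (1 / (2 * κ)) / (2 * κ) ≤ Λ := (le_max_left _ _).trans (le_max_right _ _)
  have hΛb : 27 / κ ^ 3 ≤ Λ := (le_max_right _ _).trans (le_max_right _ _)
  clear_value Λ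
  obtain ⟨q1, hq1⟩ := asym2 (5 / 4 * Λ)
  obtain ⟨q2, hq2⟩ := asym4 (a := ε / 4) (by positivity) m0
  obtain ⟨q3, hq3⟩ := asym4 (a := ε / 4 * (a / 4) / 2) (by positivity)
    (1 / (ε / 4 * (a / 4) / 2))
  set Z0 : ℕ := max (max q1 q2) q3 with hZ0
  have hq1' : q1 ≤ Z0 := (le_max_left q1 q2).trans (le_max_left _ _)
  have hq2' : q2 ≤ Z0 := (le_max_right q1 q2).trans (le_max_left _ _)
  have hq3' : q3 ≤ Z0 := le_max_right _ _
  clear_value Z0
  refine ⟨1 + 4 * CA + 12 * CB + 6 * CC + Z0, ?_⟩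
  intro Z hZ1
  have hZr : (1 : ℝ) ≤ Z := by exact_mod_cast hZ1
  have hZpos : (0 : ℝ) < Z := by linarith
  have hWpos : 0 ≤ W := by linarith
  have hbase : 1 ≤ (Z : ℝ) ^ W := Real.one_le_rpow hZr hWpos
  set D : ℕ → ℤ := fun n => A (n + 1) * ((n + 1 : ℕ) : ℤ) ^ 2 + B (n + 1) * ((n + 1 : ℕ) : ℤ)
    + C (n + 1) with hD
  set T : Finset ℕ := (range Z).filter (fun n : ℕ => ¬ Good β κ δ (n + 1) (D n)) with hT
  have hncard : Set.ncard {n : ℕ | 1 ≤ n ∧ n ≤ Z ∧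
      ¬ Good β κ δ n (A n * n ^ 2 + B n * n + C n)} ≤ T.card := by
    have hsub : {n : ℕ | 1 ≤ n ∧ n ≤ Z ∧ ¬ Good β κ δ n (A n * n ^ 2 + B n * n + C n)} ⊆
        ((T.image (fun n : ℕ => n + 1) : Finset ℕ) : Set ℕ) := by
      rintro n ⟨hn1, hn2, hn3⟩
      rw [Finset.mem_coe, Finset.mem_image]
      refine ⟨n - 1, ?_, by omega⟩
      rw [hT, Finset.mem_filter, Finset.mem_range]
      have e : n - 1 + 1 = n := by omega
      refine ⟨by omega, ?_⟩
      rw [hD]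
      simp only
      rw [e]
      exact hn3
    calc _ ≤ Set.ncard (((T.image (fun n : ℕ => n + 1) : Finset ℕ) : Set ℕ)) :=
          Set.ncard_le_ncard hsub (Finset.finite_toSet _)
      _ = (T.image (fun n : ℕ => n + 1)).card := Set.ncard_coe_finset _
      _ ≤ T.card := Finset.card_image_le
  refine le_trans (Nat.cast_le.2 hncard) ?_
  have hTZ : (T.card : ℝ) ≤ Z := by
    have := Finset.card_filter_le (range Z) (fun n : ℕ => ¬ Good β κ δ (n + 1) (D n))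
    rw [Finset.card_range] at this
    exact_mod_cast this
  by_cases hsmall : Z < Z0
  · have e1 : (Z : ℝ) ≤ Z0 := by exact_mod_cast hsmall.le
    calc (T.card : ℝ) ≤ Z := hTZ
      _ ≤ (1 + 4 * CA + 12 * CB + 6 * CC + Z0) * 1 := by linarith
      _ ≤ _ := mul_le_mul_of_nonneg_left hbase (by positivity)
  push Not at hsmall
  replace hq1 := hq1 Z (hq1'.trans hsmall)
  replace hq2 := hq2 Z (hq2'.trans hsmall)
  replace hq3 := hq3 Z (hq3'.trans hsmall)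
  set η : ℝ := ε / 4 with hη
  have hη0 : 0 < η := by positivity
  have hlogZB : log (Z : ℝ) ≤ (Z : ℝ) ^ (η * (a / 4)) := by
    set r : ℝ := η * (a / 4) / 2 with hr
    have hr0 : 0 < r := by positivity
    calc log (Z : ℝ) ≤ (Z : ℝ) ^ r / r := Real.log_le_rpow_div hZpos.le hr0
      _ = (Z : ℝ) ^ r * (1 / r) := by ring
      _ ≤ (Z : ℝ) ^ r * (Z : ℝ) ^ r := mul_le_mul_of_nonneg_left hq3 (by positivity)
      _ = (Z : ℝ) ^ (η * (a / 4)) := by
          rw [← Real.rpow_add hZpos]; congr 1; rw [hr]; ring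
  have hlogZB' : ∀ m : ℕ, (Z : ℝ) ^ η ≤ m → log (Z : ℝ) ≤ 2 * (m : ℝ) ^ (a / 4) := by
    intro m hm
    have e1 : (Z : ℝ) ^ (η * (a / 4)) ≤ (m : ℝ) ^ (a / 4) := by
      rw [Real.rpow_mul hZpos.le]
      exact Real.rpow_le_rpow (by positivity) hm (by positivity)
    have e2 : 0 ≤ (m : ℝ) ^ (a / 4) := by positivity
    linarith
  have hQD : ∀ p : ℕ, p.Prime → R < p → QType D p := fun p hp hpR =>
    qType hA hB hC hΔ hp (lt_of_le_of_lt hRp hpR)
  set M : ℕ := ⌊(Z : ℝ) ^ κ + 1⌋₊ with hM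
  have hZκ : 1 ≤ (Z : ℝ) ^ κ := Real.one_le_rpow hZr hκ.le
  have hZη : 1 ≤ (Z : ℝ) ^ η := Real.one_le_rpow hZr hη0.le
  have hMle : (M : ℝ) ≤ (Z : ℝ) ^ κ + 1 := Nat.floor_le (by positivity)
  -- first family
  set S1 : Finset ℕ := (range (⌊(Z : ℝ) ^ η⌋₊ + 1)).filter
    (fun m : ℕ => m0 ≤ m ∧ log (Z : ℝ) ≤ 2 * (m : ℝ) ^ α) with hS1
  have hex1 : ∀ m : ℕ, ∃ E : Finset ℕ, m ∈ S1 →
      (E.card : ℝ) ≤ CA * m * (Z : ℝ) ^ (4 / (5 - α') + ε / 4) ∧
        ∀ n ∈ range Z, n ∉ E → ∀ t : ℝ, (t = -1 ∨ t = 1) →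
          |∑ p ∈ PR R m, sg t p (D n)| ≤ δ * m.primesBelow.card := by
    intro m
    by_cases hm : m ∈ S1
    · rw [hS1, Finset.mem_filter] at hm
      obtain ⟨E, hE⟩ := hAA m (hmA.trans hm.2.1) Z hZ1 hm.2.2 D R hR8 hQD
      exact ⟨E, fun _ => hE⟩
    · exact ⟨∅, fun h => absurd h hm⟩
  choose E1 hE1 using hex1
  -- second family
  set S2 : Finset ℕ := (range (M + 1)).filter
    (fun m : ℕ => m0 ≤ m ∧ (Z : ℝ) ^ η ≤ m) with hS2
  have hex2 : ∀ m : ℕ, ∃ E : Finset ℕ, m ∈ S2 →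
      (E.card : ℝ) ≤ CB * m * (Z : ℝ) ^ (4 / (5 - a) + ε / 4) ∧
        ∀ n ∈ range Z, n ∉ E → ∀ t : ℝ, (t = -1 ∨ t = 1) →
          |∑ p ∈ PR R m, sg t p (D n)| ≤ δ * m.primesBelow.card := by
    intro m
    by_cases hm : m ∈ S2
    · rw [hS2, Finset.mem_filter] at hm
      obtain ⟨E, hE⟩ := hBB m (hmB.trans hm.2.1) Z hZ1 (hlogZB' m hm.2.2) D R hR8 hQD
      exact ⟨E, fun _ => hE⟩
    · exact ⟨∅, fun h => absurd h hm⟩
  choose E2 hE2 using hex2
  -- third family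
  set ms : ℕ := ⌈(Z : ℝ) ^ η⌉₊ with hms
  have hmsle : (Z : ℝ) ^ η ≤ ms := Nat.le_ceil _
  have hmslt : (ms : ℝ) ≤ 2 * (Z : ℝ) ^ η := by
    have := Nat.ceil_lt_add_one (show 0 ≤ (Z : ℝ) ^ η by positivity)
    linarith
  have hmsm0 : m0 ≤ ms := by
    have : (m0 : ℝ) ≤ ms := hq2.trans hmsle
    exact_mod_cast this
  set M2 : ℕ := ⌊(Z : ℝ) ^ (2 * κ)⌋₊ with hM2
  have hZ2κ : 1 ≤ (Z : ℝ) ^ (2 * κ) := Real.one_le_rpow hZr (by positivity)
  have hM2le : (M2 : ℝ) ≤ (Z : ℝ) ^ (2 * κ) := Nat.floor_le (by positivity)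
  have hex3 : ∀ d : ℤ, ∃ E : Finset ℕ,
      (E.card : ℝ) ≤ CC * ms * (Z : ℝ) ^ (4 / (5 - a) + ε / 4) ∧
        ∀ n ∈ range Z, n ∉ E →
          |∑ p ∈ PR R ms, sg 1 p (d : ZMod p) * sg (sg 1 p (d : ZMod p)) p (D n)|
            ≤ 1 / 2 * ms.primesBelow.card := by
    intro d
    exact hCC' ms (hmC.trans hmsm0) Z hZ1 (hlogZB' ms hmsle) D R hR8 hQD
      (fun p => sg 1 p (d : ZMod p)) (fun p => sg 1 p (d : ZMod p))
      (fun p => abs_sg (by norm_num) p _) (fun p => abs_sg (by norm_num) p _)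
  choose E3 hE3 using hex3
  set S3 : Finset ℤ := Finset.Icc (-(M2 : ℤ)) M2 with hS3
  set T0 : Finset ℕ := (range Z).filter (fun n : ℕ => ((n + 1 : ℕ) : ℝ) ≤ (Z : ℝ) ^ (4 / 5 : ℝ))
    with hT0
  have hcover : T ⊆ T0 ∪ (S1.biUnion E1 ∪ (S2.biUnion E2 ∪ S3.biUnion E3)) := by
    intro n hn
    rw [hT, Finset.mem_filter] at hn
    obtain ⟨hnZ, hbad⟩ := hn
    rw [Finset.mem_union]
    by_cases hn0 : ((n + 1 : ℕ) : ℝ) ≤ (Z : ℝ) ^ (4 / 5 : ℝ)
    · left
      rw [hT0, Finset.mem_filter]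
      exact ⟨hnZ, hn0⟩
    right
    push Not at hn0
    by_contra hnot
    apply hbad
    rw [Finset.mem_union, Finset.mem_union, Finset.mem_biUnion, Finset.mem_biUnion,
      Finset.mem_biUnion] at hnot
    push Not at hnot
    obtain ⟨hnot1, hnot2, hnot3⟩ := hnot
    intro d f hDdf hd4
    set x : ℝ := ((n + 1 : ℕ) : ℝ) with hx
    have hnZ' : x ≤ Z := by
      rw [hx]; exact_mod_cast Finset.mem_range.1 hnZ
    have hx1 : 1 ≤ x := by
      rw [hx]; push_cast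
      have := Nat.cast_nonneg (α := ℝ) n
      linarith
    have hx0 : 0 < x := by linarith
    have hxκ : x ^ κ ≤ (Z : ℝ) ^ κ := Real.rpow_le_rpow (by linarith) hnZ' hκ.le
    have hlogx : 4 / 5 * log (Z : ℝ) ≤ log x := by
      rw [← Real.log_rpow hZpos]
      exact Real.log_le_log (by positivity) hn0.le
    have hlogxΛ : Λ ≤ log x := by linarith
    have hlogx1 : 1 ≤ log x := hΛ1.trans hlogxΛ
    have hlogxβ : log x ≤ log x ^ β := by
      calc log x = log x ^ (1 : ℝ) := (Real.rpow_one _).symm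
        _ ≤ log x ^ β := Real.rpow_le_rpow_of_exponent_le hlogx1 hβ.le
    have hA : ∀ y : ℝ, log x ^ β ≤ y → y ≤ x ^ κ →
        |(splitCount d y : ℝ) - primeCount y / 2| ≤ δ * primeCount y := by
      intro y hy1 hy2
      set m : ℕ := ⌈y⌉₊ with hm
      have hym : y ≤ m := Nat.le_ceil _
      have hm0m : m0 ≤ m := by
        have : (m0 : ℝ) ≤ m := hΛm.trans (hlogxΛ.trans (hlogxβ.trans (hy1.trans hym)))
        exact_mod_cast this
      have hmM : m ≤ M := by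
        rw [hM]
        apply Nat.le_floor
        have hy0 : 0 ≤ y := le_trans (by positivity) hy1
        have h8 := Nat.ceil_lt_add_one hy0
        linarith
      have hlogZA : log (Z : ℝ) ≤ 2 * (m : ℝ) ^ α := by
        have e1 : log x ≤ (m : ℝ) ^ α := by
          calc log x = (log x ^ β) ^ α := by
                rw [← Real.rpow_mul (by linarith), hα, mul_one_div_cancel hβ0.ne', Real.rpow_one]
            _ ≤ (m : ℝ) ^ α := Real.rpow_le_rpow (by positivity) (hy1.trans hym) hα0.le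
        have e2 : 0 ≤ log (Z : ℝ) := Real.log_nonneg hZr
        linarith
      have hab : ∀ t : ℝ, (t = -1 ∨ t = 1) →
          |∑ p ∈ PR R m, sg t p (D n)| ≤ δ * m.primesBelow.card := by
        by_cases hmη : (m : ℝ) ≤ (Z : ℝ) ^ η
        · have hmS : m ∈ S1 := by
            rw [hS1, Finset.mem_filter, Finset.mem_range]
            refine ⟨?_, hm0m, hlogZA⟩
            have := Nat.le_floor hmη
            omega
          exact (hE1 m hmS).2 n hnZ (hnot1 m hmS)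
        · push Not at hmη
          have hmS : m ∈ S2 := by
            rw [hS2, Finset.mem_filter, Finset.mem_range]
            exact ⟨by omega, hm0m, hmη.le⟩
          exact (hE2 m hmS).2 n hnZ (hnot2 m hmS)
      have ha' := hab (-1) (Or.inl rfl)
      have hb' := hab 1 (Or.inr rfl)
      rw [hDdf] at ha' hb'
      have hπ : (primeCount y : ℝ) = m.primesBelow.card := by rw [primeCount_eq]
      have hrel := rel_main hd4 hR2 y (δ * m.primesBelow.card) ha' hb'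
      have hF' := hcardF m hm0m
      have hF'' : (R : ℝ) ≤ δ * m.primesBelow.card :=
        hF'.trans (mul_le_mul_of_nonneg_right (min_le_left _ _) (Nat.cast_nonneg _))
      rw [← hπ] at hF'' hrel
      have e2 : (splitCount d y : ℝ) - primeCount y / 2
          = (2 * (splitCount d y : ℝ) - primeCount y) / 2 := by ring
      rw [e2, abs_div, div_le_iff₀ (by norm_num)]
      have e3 : |(2 : ℝ)| = 2 := by norm_num
      rw [e3]
      linarith
    have hdbig : x ^ (2 * κ) < |(d : ℝ)| := by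
      by_contra hcon
      push Not at hcon
      have hdZ : |(d : ℝ)| ≤ (Z : ℝ) ^ (2 * κ) :=
        hcon.trans (Real.rpow_le_rpow hx0.le hnZ' (by positivity))
      have hdS : d ∈ S3 := by
        rw [hS3, Finset.mem_Icc, ← abs_le]
        have e1 : ((d.natAbs : ℕ) : ℝ) ≤ (Z : ℝ) ^ (2 * κ) := by
          rw [Nat.cast_natAbs, Int.cast_abs]; exact hdZ
        have e2 := Nat.le_floor e1
        rw [Int.abs_eq_natAbs]
        exact_mod_cast e2
      have e3 := (hE3 d).2 n hnZ (hnot3 d hdS)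
      rw [hDdf, sum_twist, Nat.abs_cast] at e3
      have e4 := card_PR R ms
      have e5 := hcardF ms hmsm0
      have e6 : (R : ℝ) ≤ 1 / 4 * ms.primesBelow.card :=
        e5.trans (mul_le_mul_of_nonneg_right (min_le_right _ _) (Nat.cast_nonneg _))
      have e7 : (8 : ℝ) ≤ R := by exact_mod_cast hR8
      linarith
    refine ⟨hA, hdbig, ?_⟩
    have hexp : Real.exp (log x) = x := Real.exp_log hx0
    have hthr : log x ^ 2 ≤ threshold d := by
      apply threshold_ge hκ hlogx1 (hΛa.trans hlogxΛ)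
      have : Real.exp (2 * κ * log x) = x ^ (2 * κ) := by
        rw [Real.rpow_def_of_pos hx0]; congr 1; ring
      rw [this]; exact hdbig
    have hsq : log x ^ 2 ≤ x ^ κ := by
      have := sq_le_exp hκ hlogx1 (hΛb.trans hlogxΛ)
      rwa [mul_comm κ, ← Real.rpow_def_of_pos hx0] at this
    have hlow : log x ^ β ≤ min (threshold d) (x ^ κ) := by
      have e1 : log x ^ β ≤ log x ^ 2 := by
        calc log x ^ β ≤ log x ^ (2 : ℝ) := Real.rpow_le_rpow_of_exponent_le hlogx1 hβ2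
          _ = log x ^ 2 := Real.rpow_two _
      exact e1.trans (le_min hthr hsq)
    have hmain := hA _ hlow (min_le_right _ _)
    have hmono : (splitCount d (min (threshold d) (x ^ κ)) : ℝ) ≤ N d := by
      exact_mod_cast splitCount_mono d (min_le_left _ _)
    have e5 := (abs_le.1 hmain).1
    linarith
  have hcardT : (T.card : ℝ) ≤ T0.card + (∑ m ∈ S1, ((E1 m).card : ℝ) +
      (∑ m ∈ S2, ((E2 m).card : ℝ) + ∑ d ∈ S3, ((E3 d).card : ℝ))) := by
    have e1 := (Finset.card_le_card hcover).trans (Finset.card_union_le _ _)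
    have e2 : (S1.biUnion E1).card ≤ ∑ m ∈ S1, (E1 m).card := Finset.card_biUnion_le
    have e3 : (S2.biUnion E2).card ≤ ∑ m ∈ S2, (E2 m).card := Finset.card_biUnion_le
    have e4 : (S3.biUnion E3).card ≤ ∑ m ∈ S3, (E3 m).card := Finset.card_biUnion_le
    have e5 := Finset.card_union_le (S2.biUnion E2) (S3.biUnion E3)
    have e6 := Finset.card_union_le (S1.biUnion E1) (S2.biUnion E2 ∪ S3.biUnion E3)
    have e7 : T.card ≤ T0.card + (∑ m ∈ S1, (E1 m).card +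
        (∑ m ∈ S2, (E2 m).card + ∑ d ∈ S3, (E3 d).card)) := by omega
    exact_mod_cast e7
  have hT0card : (T0.card : ℝ) ≤ (Z : ℝ) ^ (4 / 5 : ℝ) := by
    have hsub : T0 ⊆ range ⌊(Z : ℝ) ^ (4 / 5 : ℝ)⌋₊ := by
      intro n hn
      rw [hT0, Finset.mem_filter] at hn
      rw [Finset.mem_range]
      have := Nat.le_floor hn.2
      omega
    have e1 := Finset.card_le_card hsub
    rw [Finset.card_range] at e1
    calc (T0.card : ℝ) ≤ (⌊(Z : ℝ) ^ (4 / 5 : ℝ)⌋₊ : ℝ) := by exact_mod_cast e1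
      _ ≤ _ := Nat.floor_le (by positivity)
  have hT0card' : (T0.card : ℝ) ≤ (Z : ℝ) ^ W :=
    hT0card.trans (Real.rpow_le_rpow_of_exponent_le hZr (by linarith))
  have hsum1 : ∑ m ∈ S1, ((E1 m).card : ℝ) ≤ 4 * CA * (Z : ℝ) ^ W := by
    have e1 : ∀ m ∈ S1, ((E1 m).card : ℝ) ≤
        CA * (Z : ℝ) ^ η * (Z : ℝ) ^ (4 / (5 - α') + ε / 4) := by
      intro m hm
      refine ((hE1 m hm).1).trans ?_
      rw [hS1, Finset.mem_filter, Finset.mem_range] at hm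
      apply mul_le_mul_of_nonneg_right _ (by positivity)
      apply mul_le_mul_of_nonneg_left _ hCA.le
      have h8 : m ≤ ⌊(Z : ℝ) ^ η⌋₊ := by omega
      exact (Nat.le_floor_iff (by positivity)).1 h8
    have e2 : (S1.card : ℝ) ≤ 2 * (Z : ℝ) ^ η := by
      have e3 := Finset.card_filter_le (range (⌊(Z : ℝ) ^ η⌋₊ + 1))
        (fun m : ℕ => m0 ≤ m ∧ log (Z : ℝ) ≤ 2 * (m : ℝ) ^ α)
      rw [Finset.card_range] at e3
      have e4 : (S1.card : ℝ) ≤ (⌊(Z : ℝ) ^ η⌋₊ : ℝ) + 1 := by exact_mod_cast e3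
      have e5 : (⌊(Z : ℝ) ^ η⌋₊ : ℝ) ≤ (Z : ℝ) ^ η := Nat.floor_le (by positivity)
      linarith
    have e3 : (Z : ℝ) ^ η * ((Z : ℝ) ^ η * (Z : ℝ) ^ (4 / (5 - α') + ε / 4)) ≤ (Z : ℝ) ^ W := by
      rw [← Real.rpow_add hZpos, ← Real.rpow_add hZpos]
      apply Real.rpow_le_rpow_of_exponent_le hZr
      rw [hη]; linarith
    calc ∑ m ∈ S1, ((E1 m).card : ℝ)
        ≤ ∑ _m ∈ S1, (CA * (Z : ℝ) ^ η * (Z : ℝ) ^ (4 / (5 - α') + ε / 4)) :=
          Finset.sum_le_sum e1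
      _ = S1.card * (CA * (Z : ℝ) ^ η * (Z : ℝ) ^ (4 / (5 - α') + ε / 4)) := by
          rw [Finset.sum_const, nsmul_eq_mul]
      _ ≤ (2 * (Z : ℝ) ^ η) * (CA * (Z : ℝ) ^ η * (Z : ℝ) ^ (4 / (5 - α') + ε / 4)) :=
          mul_le_mul_of_nonneg_right e2 (by positivity)
      _ = 2 * CA * ((Z : ℝ) ^ η * ((Z : ℝ) ^ η * (Z : ℝ) ^ (4 / (5 - α') + ε / 4))) := by ring
      _ ≤ 2 * CA * (Z : ℝ) ^ W := mul_le_mul_of_nonneg_left e3 (by positivity)
      _ ≤ 4 * CA * (Z : ℝ) ^ W := by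
          apply mul_le_mul_of_nonneg_right _ (by positivity)
          linarith
  have hsum2 : ∑ m ∈ S2, ((E2 m).card : ℝ) ≤ 12 * CB * (Z : ℝ) ^ W := by
    have e1 : ∀ m ∈ S2, ((E2 m).card : ℝ) ≤
        CB * (2 * (Z : ℝ) ^ κ) * (Z : ℝ) ^ (4 / (5 - a) + ε / 4) := by
      intro m hm
      refine ((hE2 m hm).1).trans ?_
      rw [hS2, Finset.mem_filter, Finset.mem_range] at hm
      apply mul_le_mul_of_nonneg_right _ (by positivity)
      apply mul_le_mul_of_nonneg_left _ hCB.le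
      have hmM : (m : ℝ) ≤ M := by
        have : m ≤ M := by omega
        exact_mod_cast this
      linarith
    have e2 : (S2.card : ℝ) ≤ 3 * (Z : ℝ) ^ κ := by
      have e3 := Finset.card_filter_le (range (M + 1)) (fun m : ℕ => m0 ≤ m ∧ (Z : ℝ) ^ η ≤ m)
      rw [Finset.card_range] at e3
      have e4 : (S2.card : ℝ) ≤ (M : ℝ) + 1 := by exact_mod_cast e3
      linarith
    have e3 : (Z : ℝ) ^ κ * ((Z : ℝ) ^ κ * (Z : ℝ) ^ (4 / (5 - a) + ε / 4)) ≤ (Z : ℝ) ^ W := by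
      rw [← Real.rpow_add hZpos, ← Real.rpow_add hZpos]
      apply Real.rpow_le_rpow_of_exponent_le hZr
      linarith
    calc ∑ m ∈ S2, ((E2 m).card : ℝ)
        ≤ ∑ _m ∈ S2, (CB * (2 * (Z : ℝ) ^ κ) * (Z : ℝ) ^ (4 / (5 - a) + ε / 4)) :=
          Finset.sum_le_sum e1
      _ = S2.card * (CB * (2 * (Z : ℝ) ^ κ) * (Z : ℝ) ^ (4 / (5 - a) + ε / 4)) := by
          rw [Finset.sum_const, nsmul_eq_mul]
      _ ≤ (3 * (Z : ℝ) ^ κ) * (CB * (2 * (Z : ℝ) ^ κ) * (Z : ℝ) ^ (4 / (5 - a) + ε / 4)) :=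
          mul_le_mul_of_nonneg_right e2 (by positivity)
      _ = 6 * CB * ((Z : ℝ) ^ κ * ((Z : ℝ) ^ κ * (Z : ℝ) ^ (4 / (5 - a) + ε / 4))) := by ring
      _ ≤ 6 * CB * (Z : ℝ) ^ W := mul_le_mul_of_nonneg_left e3 (by positivity)
      _ ≤ 12 * CB * (Z : ℝ) ^ W := by
          apply mul_le_mul_of_nonneg_right _ (by positivity)
          linarith
  have hsum3 : ∑ d ∈ S3, ((E3 d).card : ℝ) ≤ 6 * CC * (Z : ℝ) ^ W := by
    have e1 : ∀ d ∈ S3, ((E3 d).card : ℝ) ≤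
        CC * (2 * (Z : ℝ) ^ η) * (Z : ℝ) ^ (4 / (5 - a) + ε / 4) := by
      intro d _
      refine ((hE3 d).1).trans ?_
      apply mul_le_mul_of_nonneg_right _ (by positivity)
      exact mul_le_mul_of_nonneg_left hmslt hCC.le
    have e2 : (S3.card : ℝ) ≤ 3 * (Z : ℝ) ^ (2 * κ) := by
      have e3 : S3.card = 2 * M2 + 1 := by
        rw [hS3, Int.card_Icc]; omega
      rw [e3]; push_cast; linarith
    have e3 : (Z : ℝ) ^ (2 * κ) * ((Z : ℝ) ^ η * (Z : ℝ) ^ (4 / (5 - a) + ε / 4))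
        ≤ (Z : ℝ) ^ W := by
      rw [← Real.rpow_add hZpos, ← Real.rpow_add hZpos]
      apply Real.rpow_le_rpow_of_exponent_le hZr
      rw [hη]; linarith
    calc ∑ d ∈ S3, ((E3 d).card : ℝ)
        ≤ ∑ _d ∈ S3, (CC * (2 * (Z : ℝ) ^ η) * (Z : ℝ) ^ (4 / (5 - a) + ε / 4)) :=
          Finset.sum_le_sum e1
      _ = S3.card * (CC * (2 * (Z : ℝ) ^ η) * (Z : ℝ) ^ (4 / (5 - a) + ε / 4)) := by
          rw [Finset.sum_const, nsmul_eq_mul]
      _ ≤ (3 * (Z : ℝ) ^ (2 * κ)) *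
            (CC * (2 * (Z : ℝ) ^ η) * (Z : ℝ) ^ (4 / (5 - a) + ε / 4)) :=
          mul_le_mul_of_nonneg_right e2 (by positivity)
      _ = 6 * CC * ((Z : ℝ) ^ (2 * κ) * ((Z : ℝ) ^ η * (Z : ℝ) ^ (4 / (5 - a) + ε / 4))) := by
          ring
      _ ≤ 6 * CC * (Z : ℝ) ^ W := mul_le_mul_of_nonneg_left e3 (by positivity)
  have hZ0W : 0 ≤ (Z0 : ℝ) * (Z : ℝ) ^ W := by positivity
  calc (T.card : ℝ) ≤ (Z : ℝ) ^ W + (4 * CA * (Z : ℝ) ^ W + (12 * CB * (Z : ℝ) ^ W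
        + 6 * CC * (Z : ℝ) ^ W)) := by linarith
    _ ≤ (1 + 4 * CA + 12 * CB + 6 * CC + Z0) * (Z : ℝ) ^ W := by linarith

end MPaaa0dfExp
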