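import Pool.Agent.W_aaa0df_h13.Block
import Pool.Agent.W_MP_aaa0df_nt.Rel

set_option autoImplicit false

namespace MPaaa0dfExp

open Finset Real MPaaa0df

open Classical in
/-- `1` if `p` is split, `-1` otherwise -/
noncomputable def sig (d : ℤ) (p : ℕ) : ℝ :=
  if (¬ ((p : ℤ) ∣ d) ∧ ∃ x : ℤ, (4 * (p : ℤ)) ∣ x ^ 2 - d) then 1 else -1

lemma sig_bounds {d f : ℤ} (hd : d % 4 = 0 ∨ d % 4 = 1) {p : ℕ} (hp : p.Prime) (hp2 : p ≠ 2) :
    sg (-1) p ((d * f ^ 2 : ℤ) : ZMod p) ≤ sig d p ∧ sig d p ≤ sg 1 p ((d * f ^ 2 : ℤ) : ZMod p) := by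
  classical
  have hpF : Fact p.Prime := ⟨hp⟩
  have hsig : -1 ≤ sig d p ∧ sig d p ≤ 1 := by
    unfold sig; split_ifs <;> norm_num
  by_cases h0 : ((d * f ^ 2 : ℤ) : ZMod p) = 0
  · unfold sg
    rw [if_pos h0, if_pos h0]
    exact hsig
  · have hd0 : (d : ZMod p) ≠ 0 := by
      intro h; apply h0; push_cast; rw [h]; ring
    have hf0 : (f : ZMod p) ≠ 0 := by
      intro h; apply h0; push_cast; rw [h]; ring
    have hpd : ¬ ((p : ℤ) ∣ d) := fun h => hd0 ((ZMod.intCast_zmod_eq_zero_iff_dvd d p).2 h)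
    have hsq : IsSquare ((d * f ^ 2 : ℤ) : ZMod p) ↔ IsSquare (d : ZMod p) := by
      push_cast
      constructor
      · rintro ⟨y, hy⟩
        refine ⟨y / f, ?_⟩
        field_simp
        rw [hy]; ring
      · rintro ⟨y, hy⟩
        exact ⟨y * f, by rw [hy]; ring⟩
    have hsplit : (∃ x : ℤ, (4 * (p : ℤ)) ∣ x ^ 2 - d) ↔ IsSquare (d : ZMod p) := by
      rw [split_iff hd hp hp2 hpd, ← jacobiSym.legendreSym.to_jacobiSym,
        legendreSym.eq_one_iff p hd0]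
    have heq : sig d p = if IsSquare (d : ZMod p) then 1 else -1 := by
      unfold sig
      by_cases h : IsSquare (d : ZMod p)
      · rw [if_pos ⟨hpd, hsplit.2 h⟩, if_pos h]
      · rw [if_neg h, if_neg]
        rintro ⟨_, h'⟩
        exact h (hsplit.1 h')
    unfold sg
    rw [if_neg h0, if_neg h0, heq]
    by_cases h : IsSquare (d : ZMod p)
    · rw [if_pos h, if_pos (hsq.2 h)]
      exact ⟨le_refl _, le_refl _⟩
    · rw [if_neg h, if_neg (fun h' => h (hsq.1 h'))]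
      exact ⟨le_refl _, le_refl _⟩

lemma sdiff_card (R m : ℕ) : (m.primesBelow \ PR R m).card ≤ R := by
  have h : m.primesBelow \ PR R m ⊆ (Finset.range (R + 1)).erase 0 := by
    intro p hp
    rw [Finset.mem_sdiff, PR, Finset.mem_filter, not_and] at hp
    have h1 := hp.2 hp.1
    have h2 := (Nat.prime_of_mem_primesBelow hp.1).pos
    rw [Finset.mem_erase, Finset.mem_range]
    omega
  have := Finset.card_le_card h
  rw [Finset.card_erase_of_mem (by simp), Finset.card_range] at this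
  simpa using this

lemma rel_main {d f : ℤ} (hd : d % 4 = 0 ∨ d % 4 = 1) {R : ℕ} (hR : 2 ≤ R) (y : ℝ) (e : ℝ)
    (h1 : |∑ p ∈ PR R ⌈y⌉₊, sg (-1) p ((d * f ^ 2 : ℤ) : ZMod p)| ≤ e)
    (h2 : |∑ p ∈ PR R ⌈y⌉₊, sg 1 p ((d * f ^ 2 : ℤ) : ZMod p)| ≤ e) :
    |2 * (splitCount d y : ℝ) - primeCount y| ≤ e + R := by
  classical
  set m := ⌈y⌉₊ with hm
  rw [primeCount_eq, splitCount_eq, ← hm]
  set F := m.primesBelow with hF
  set P := PR R m with hP
  have hPF : P ⊆ F := Finset.filter_subset _ _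
  have h3 : 2 * ((F.filter (fun p : ℕ => ¬ ((p : ℤ) ∣ d) ∧
      ∃ x : ℤ, (4 * (p : ℤ)) ∣ x ^ 2 - d)).card : ℝ) - F.card = ∑ p ∈ F, sig d p := by
    have e1 : ∀ p ∈ F, sig d p = 2 * (if (¬ ((p : ℤ) ∣ d) ∧ ∃ x : ℤ, (4 * (p : ℤ)) ∣ x ^ 2 - d)
        then (1 : ℝ) else 0) - 1 := by
      intro p _
      unfold sig
      split_ifs <;> norm_num
    rw [Finset.sum_congr rfl e1, Finset.sum_sub_distrib, ← Finset.mul_sum, Finset.sum_const,
      nsmul_eq_mul, mul_one, Finset.sum_ite, Finset.sum_const_zero, add_zero, Finset.sum_const,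
      nsmul_eq_mul, mul_one]
  rw [h3, ← Finset.sum_sdiff hPF]
  have h4 : |∑ p ∈ F \ P, sig d p| ≤ R := by
    calc |∑ p ∈ F \ P, sig d p| ≤ ∑ p ∈ F \ P, |sig d p| := Finset.abs_sum_le_sum_abs _ _
      _ ≤ ∑ _p ∈ F \ P, (1 : ℝ) := by
          apply Finset.sum_le_sum
          intro p _
          unfold sig; split_ifs <;> norm_num
      _ = (F \ P).card := by rw [Finset.sum_const, nsmul_eq_mul, mul_one]
      _ ≤ R := by exact_mod_cast sdiff_card R m
  have hb : ∀ p ∈ P, sg (-1) p ((d * f ^ 2 : ℤ) : ZMod p) ≤ sig d p ∧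
      sig d p ≤ sg 1 p ((d * f ^ 2 : ℤ) : ZMod p) := by
    intro p hp
    rw [hP, PR, Finset.mem_filter] at hp
    exact sig_bounds hd (Nat.prime_of_mem_primesBelow hp.1) (by omega)
  have h5 := Finset.sum_le_sum (fun p hp => (hb p hp).1)
  have h6 := Finset.sum_le_sum (fun p hp => (hb p hp).2)
  rw [abs_le] at h1 h2 h4 ⊢
  constructor <;> linarith [h1.1, h1.2, h2.1, h2.2, h4.1, h4.2]

end MPaaa0dfExp
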